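import Pool.Agent.H57.SWB.Aes
import Pool.Agent.H66.D2.C1s

/-!
# The joint of a cell at the windows where the swapped list exists

`AeRs`: a property of the windows (of the list itself) holds at almost every window of each closed set
of good windows where the coordinate of the place `k + 1` has closed labels of its level over the
places before `k` and the diagonal numbers are continuous. `joint_ae_rs`: the record and the property at almost every such window.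
`cell_of_rsx`: a cell at these windows from its class theorem.
-/

set_option autoImplicit false

namespace Pool.SWP

open Finset Real MvPolynomial MeasureTheory Filter Topology
open Pool.Agent.H49.Ent Pool.Agent.H32.Dense Pool.STK Pool.KA Pool.KSAT Pool.K2S Pool.PB Pool.S6C
open Pool.GEN Pool.CHT Pool.STAT Pool.GRW Pool.STA Pool.ONE Pool.ISO Pool.RCD Pool.LA91
open Pool.AVG96
open Pool.PKG Pool.OWN68 Pool.OWN83 Pool.D2F2 Pool.AVG57
open Pool.TOP (TopS)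
open Pool.STR (ThinAt SteepAt StaAt sta_of_pairs)
open Pool.MIC6 Pool.ASM

/-- The windows where the diagonal numbers are continuous. -/
def CtD {n : ℕ} (Λ : Finset (Fin n) → Fin n → ℝ → ℝ → ℝ) : Set ℝ :=
  {w | ∀ (I : Finset (Fin n)) (v : Fin n), ContinuousAt (fun x => Λ I v x x) w}

theorem ctD_cnt {n : ℕ} {S : PCl n} {Λ : Finset (Fin n) → Fin n → ℝ → ℝ → ℝ}
    (hL : LamW S Λ) : (CtD Λ)ᶜ.Countable := by
  have h1 : (CtD Λ)ᶜ ⊆ ⋃ p : Finset (Fin n) × Fin n,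
      {w | ¬ ContinuousAt (fun w => Λ p.1 p.2 w w) w} := by
    intro w hw
    by_contra hcon
    refine hw fun I v => ?_
    by_contra h2
    exact hcon (Set.mem_iUnion.2 ⟨(I, v), h2⟩)
  exact (Set.countable_iUnion fun p : Finset (Fin n) × Fin n =>
    (Pool.OWN17.cnt_L hL p.1 p.2).2).mono h1

/-- **The property holds at almost every window** of a closed set of windows where the swapped list
exists and the diagonal numbers are continuous, in a subclass. -/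
def AeRs (n k : ℕ) {ι : Type} (Q : PropG n ι) : Prop :=
  ∀ (hn : 2 ≤ n) (S : PCl n) (P : ℝ → ℝ → ℝ) (r : ℝ → ℝ)
    (P' : ℕ → List (Fin n) × Fin n → ℝ → ℝ → ℝ) (Λ : Finset (Fin n) → Fin n → ℝ → ℝ → ℝ)
    (PB : ℕ → List (Fin n) × Fin n → ℝ → ℝ → ℝ) (PQ : ℚ → List (Fin n) × Fin n → ℝ → ℝ → ℝ),
    PkB hn S P r P' Λ PB PQ → TopS n → FZX (n - 1) → ∀ (o : Od n) (G : Set ℝ), IsClosed G →
      G ⊆ Gs P r P' Λ o →
      (∀ w ∈ G, LvL hn P P' o (k + 1) w w ≤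
        Λ ((range k).image (cc hn o.1.1)) (cc hn o.1.1 (k + 1)) w w) →
      (∀ w ∈ G, SwA S (cc hn o.1.1) (LvL hn P P' o) k w) → G ⊆ CtD Λ → ∃ S' : PCl n, S'.Ne ∧
        (∀ (τ : ℝ) (J : ℕ) (F : Fam n J) (A : F.Ω → Prop), S'.St τ J F A → S.St τ J F A) ∧
        ∀ᵐ g : ℝ, g ∈ G → ∀ κ : ℕ → Kg, (∀ l < n, KgAt hn P P' PB o l g (κ l)) → ∀ p : ι,
          ∃ k₀ : ℕ, Q p k₀ S' (P' o.2) (tht o.2) (cc hn o.1.1) P r (LvL hn P P' o)
            (LvT hn PB o) κ G g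

/-- A property at almost every window. -/
theorem _root_.Pool.PKG.AePG.rs {n k : ℕ} {ι : Type} {Q : PropG n ι} (h : AePG n Q) :
    AeRs n k Q :=
  fun hn S P r P' Λ PB PQ H hTop hF o G hG hGs _ _ _ =>
    h hn S P r P' Λ PB PQ H hTop hF o G hG hGs

/-- **Two properties**, in one subclass. -/
theorem AeRs.sum {n k : ℕ} {ι ι' : Type} {Q : PropG n ι} {Q' : PropG n ι'} (h : AeRs n k Q)
    (hh : HerQ Q) (h' : AeRs n k Q') : AeRs n k (sumQ Q Q') := by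
  intro hn S P r P' Λ PB PQ H hTop hF o G hG hGs hdg hsw hct
  obtain ⟨S₁, a1, a2, a3⟩ := h hn S P r P' Λ PB PQ H hTop hF o G hG hGs hdg hsw hct
  obtain ⟨S₂, b1, b2, b3⟩ := h' hn S₁ P r P' Λ PB PQ (H.sub a1 a2) hTop hF o G hG hGs hdg
    (fun w hw => (hsw w hw).sub a2) hct
  refine ⟨S₂, b1, fun τ J F A h => a2 τ J F A (b2 τ J F A h), ?_⟩
  filter_upwards [a3, b3] with g ha hb hg κ hκ p
  rcases p with p | p
  · obtain ⟨k₀, hk₀⟩ := ha hg κ hκ p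
    exact ⟨k₀, hh _ _ _ _ _ _ _ _ _ _ _ _ _ _ b2 hk₀⟩
  · exact hb hg κ hκ p

/-- **Two properties of the swapped list**, in one subclass. -/
theorem AeSw.sum {n k : ℕ} {ι ι' : Type} {Q : PropG n ι} {Q' : PropG n ι'} (h : AeSw n k Q)
    (hh : HerQ Q) (h' : AeSw n k Q') : AeSw n k (sumQ Q Q') := by
  intro hn S P r P' Λ PB PQ H hTop hF o G hG hGs hdg hsw
  obtain ⟨S₁, a1, a2, a3⟩ := h hn S P r P' Λ PB PQ H hTop hF o G hG hGs hdg hsw
  obtain ⟨S₂, b1, b2, b3⟩ := h' hn S₁ P r P' Λ PB PQ (H.sub a1 a2) hTop hF o G hG hGs hdg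
    fun w hw => (hsw w hw).sub a2
  refine ⟨S₂, b1, fun τ J F A h => a2 τ J F A (b2 τ J F A h), ?_⟩
  filter_upwards [a3, b3] with g ha hb hg κ hκ p
  rcases p with p | p
  · obtain ⟨k₀, hk₀⟩ := ha hg κ hκ p
    exact ⟨k₀, hh _ _ _ _ _ _ _ _ _ _ _ _ _ _ b2 hk₀⟩
  · exact hb hg κ hκ p

/-- The same property, with the hypothesis at the window. -/
theorem AeRs.mono {n k : ℕ} {ι : Type} {Q Q' : PropG n ι} (h : AeRs n k Q)
    (hQ : ∀ (p : ι) (k₀ : ℕ) (S : PCl n) (P : List (Fin n) × Fin n → ℝ → ℝ → ℝ) (θ : ℝ)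
      (c : ℕ → Fin n) (Pt : ℝ → ℝ → ℝ) (r : ℝ → ℝ) (L T : ℕ → ℝ → ℝ → ℝ) (κ : ℕ → Kg)
      (G : Set ℝ) (x : ℝ), Q p k₀ S P θ c Pt r L T κ G x → Q' p k₀ S P θ c Pt r L T κ G x) :
    AeRs n k Q' := by
  intro hn S P r P' Λ PB PQ H hTop hF o G hG hGs hdg hsw hct
  obtain ⟨S₁, a1, a2, a3⟩ := h hn S P r P' Λ PB PQ H hTop hF o G hG hGs hdg hsw hct
  refine ⟨S₁, a1, a2, ?_⟩
  filter_upwards [a3] with g ha hg κ hκ p
  obtain ⟨k₀, hk₀⟩ := ha hg κ hκ p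
  exact ⟨k₀, hQ _ _ _ _ _ _ _ _ _ _ _ _ _ hk₀⟩

variable {n : ℕ} {hn : 2 ≤ n} {S : PCl n} {P : ℝ → ℝ → ℝ} {r : ℝ → ℝ}
  {P' : ℕ → List (Fin n) × Fin n → ℝ → ℝ → ℝ} {Λ : Finset (Fin n) → Fin n → ℝ → ℝ → ℝ}
  {PB : ℕ → List (Fin n) × Fin n → ℝ → ℝ → ℝ}

/-- **The windows where the swapped list exists**: the number of the coordinate of the place `k + 1`
over the places before `k` is its level. -/
def TwA (hn : 2 ≤ n) (P : ℝ → ℝ → ℝ) (P' : ℕ → List (Fin n) × Fin n → ℝ → ℝ → ℝ)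
    (Λ : Finset (Fin n) → Fin n → ℝ → ℝ → ℝ) (k : ℕ) (o : Od n) (g : ℝ) : Prop :=
  LvL hn P P' o (k + 1) g g ≤ Λ ((range k).image (cc hn o.1.1)) (cc hn o.1.1 (k + 1)) g g

/-- **Almost every such window is in a closed set of them** (of the sort of a good set). -/
theorem ae_of_twa (H : PkT hn S P r P' Λ PB) (k : ℕ) (o : Od n) {X : ℝ → Prop}
    (h : ∀ G : Set ℝ, IsClosed G → G ⊆ Gs P r P' Λ o → (∀ w ∈ G, TwA hn P P' Λ k o w) →
      (∀ w ∈ G, SwA S (cc hn o.1.1) (LvL hn P P' o) k w) → G ⊆ CtD Λ →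
      ∀ᵐ g : ℝ, g ∈ G → X g) :
    ∀ᵐ g : ℝ, g ∈ Gs P r P' Λ o → TwA hn P P' Λ k o g → X g := by
  have hlam := H.toPk.lam
  obtain ⟨M, hM⟩ : ∃ M : Set ℝ, M = Gs P r P' Λ o ∩ {w | dgP (LvL hn P P' o (k + 1)) w ≤
      Λ ((range k).image (cc hn o.1.1)) (cc hn o.1.1 (k + 1)) w w} := ⟨_, rfl⟩
  have hmon : Monotone fun w : ℝ =>
      Λ ((range k).image (cc hn o.1.1)) (cc hn o.1.1 (k + 1)) w w := fun a b h =>
    hlam.mono _ _ _ _ _ _ _ (Finset.Subset.refl _) h h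
  have hMm : MeasurableSet M := by
    rw [hM]
    exact (H.toPk.gs_meas o).inter (measurableSet_le
      (dgP_mono (H.lawL o (k + 1))).measurable hmon.measurable)
  have hMG : ∀ w ∈ M, w ∈ Gs P r P' Λ o ∧ TwA hn P P' Λ k o w := by
    intro w hw
    rw [hM] at hw
    obtain ⟨h1, h2⟩ := hw
    refine ⟨h1, ?_⟩
    have h3 : dgP (LvL hn P P' o (k + 1)) w ≤
      Λ ((range k).image (cc hn o.1.1)) (cc hn o.1.1 (k + 1)) w w := h2
    rwa [dgP_eq _ h1.1.1.1.le h1.1.1.2.1.le] at h3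
  have hfin : volume M ≠ ⊤ := by
    have h1 : M ⊆ Set.Icc 0 1 := fun x hx =>
      ⟨(hMG x hx).1.1.1.1.le, (hMG x hx).1.1.1.2.1.le⟩
    exact ((measure_mono h1).trans_lt (by simp)).ne
  have hat : ∀ᵐ w : ℝ, w ∈ M → SwA S (cc hn o.1.1) (LvL hn P P' o) k w := by
    filter_upwards [att_lam hlam] with w hw hwM
    obtain ⟨h1, h2⟩ := hMG w hwM
    exact hw h1.1.1.1 h1.1.1.2.1.le _ _ _ _ h1.1.1.2.1 h2
  obtain ⟨X', hX'⟩ : ∃ X' : Set ℝ, X' = toMeasurable volume {w | w ∈ M ∧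
    ¬ SwA S (cc hn o.1.1) (LvL hn P P' o) k w} := ⟨_, rfl⟩
  have hX0 : volume X' = 0 := by
    rw [hX', measure_toMeasurable]
    refine measure_eq_zero_iff_ae_notMem.2 ?_
    filter_upwards [hat] with w hw hcon
    exact hcon.2 (hw hcon.1)
  have hXm : MeasurableSet X' := by
    rw [hX']
    exact measurableSet_toMeasurable _ _
  have hXs : ∀ w ∈ M, w ∉ X' → SwA S (cc hn o.1.1) (LvL hn P P' o) k w := by
    intro w hw hwX
    by_contra hcon
    rw [hX'] at hwX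
    exact hwX (subset_toMeasurable _ _ ⟨hw, hcon⟩)
  have hcn := ctD_cnt hlam
  have h1 := ae_of_closed ((hMm.diff hXm).diff hcn.measurableSet) (ne_top_of_le_ne_top hfin
    (measure_mono fun x hx => hx.1.1)) (X := X) fun G hG hGM =>
      h G hG (fun w hw => (hMG w (hGM hw).1.1).1) (fun w hw => (hMG w (hGM hw).1.1).2)
        (fun w hw => hXs w (hGM hw).1.1 (hGM hw).1.2) fun w hw => by
          have := (hGM hw).2
          rwa [Set.mem_compl_iff, not_not] at this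
  filter_upwards [h1, measure_eq_zero_iff_ae_notMem.1 hX0, hcn.ae_notMem volume] with g k1 k2 k3
    hg hgT
  refine k1 ⟨⟨?_, k2⟩, k3⟩
  rw [hM]
  refine ⟨hg, ?_⟩
  show dgP (LvL hn P P' o (k + 1)) g ≤
    Λ ((range k).image (cc hn o.1.1)) (cc hn o.1.1 (k + 1)) g g
  rw [dgP_eq _ hg.1.1.1.le hg.1.1.2.1.le]
  exact hgT

/-- **The record and the property** at almost every window where the swapped list exists, in a
subclass. -/
theorem joint_ae_rs {ι : Type} [Countable ι] {Q : PropG n ι} {k : ℕ} (hQ : AeRs n k Q)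
    (H : PkT hn S P r P' Λ PB) (hTop : TopS n) (hF : FZX (n - 1)) (o : Od n) (κ : ℕ → Kg) :
    ∀ᵐ g : ℝ, g ∈ Gs P r P' Λ o → TwA hn P P' Λ k o g →
      (∀ l < n, KgAt hn P P' PB o l g (κ l)) →
      ∃ (S' : PCl n) (G : Set ℝ), PkT hn S' P r P' Λ PB ∧ IsClosed G ∧ g ∈ G ∧
        WnG hn S' P P' PB o G g ∧ ∀ p : ι, ∃ k₀ : ℕ, Q p k₀ S' (P' o.2) (tht o.2)
          (cc hn o.1.1) P r (LvL hn P P' o) (LvT hn PB o) κ G g := by
  refine ae_of_twa H k o fun G hG hGs hdg hsw hct => ?_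
  obtain ⟨S₁, PQ, hS₁, HB⟩ := pkB_ex H
  obtain ⟨S', hne, hs, hae⟩ := hQ hn S₁ P r P' Λ PB PQ HB hTop hF o G hG hGs hdg
    (fun w hw => (hsw w hw).sub hS₁) hct
  have HB' := HB.sub hne hs
  filter_upwards [HB'.wnG_ae hTop hF hG.measurableSet hGs, hae] with g h1 h2 hg hk
  exact ⟨S', G, HB'.toPkT, hG, hg, h1 hg, fun p => h2 hg κ hk p⟩

/-- **A cell at the windows where the swapped list exists** and whose slopes satisfy a condition, from
its class theorem at a window, with a property at the window. -/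
theorem cell_of_rsx {ι : Type} [Countable ι] {Q : PropG n ι} {k : ℕ} (hQ : AeRs n k Q)
    (H : PkT hn S P r P' Λ PB) (hTop : TopS n)
    (hF : FZX (n - 1)) (h : ℝ) {κ : List Kd} (hκn : κ.length ≤ n - 1) (φ : (ℕ → ℝ) → Prop)
    (hcls : ∀ Sl : ℕ → ℝ, φ Sl → (∀ (l : ℕ) (hl : l < κ.length), 
      (κ[l] = .one → Sl l = 1) ∧ (κ[l] = .thin → 1 < Sl l) ∧ (κ[l] = .sta → 2 ≤ Sl l)) →
      2 < Sl κ.length → (∀ l < n, 1 ≤ Sl l) → CelQI n κ.length h Sl (kgL κ) Q) :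
    CellX H hTop hF h (fun o g => φ (SlL hn P P' o g) ∧ TwA hn P P' Λ k o g) κ := by
  intro o
  filter_upwards [joint_ae_rs hQ H hTop hF o (kgL κ), H.dia_all H.pble hTop hF,
    sl_one H hTop hF, one_zero H hTop hF o] with g h1 hdia h1s h0 R hφ _ hk hs hst
  have ho := R.rwd.mem
  obtain ⟨α, Q₁, c', F⟩ := H.toPk.fac hTop hF ho
  have hg0 := F.g0
  have hg1 := F.g1
  have hkg : ∀ l < n, KgAt hn P P' PB o l g (kgL κ l) := fun l hl => by
    rcases lt_trichotomy l κ.length with h5 | h5 | h5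
    · rw [kgL_lt h5]
      exact (hk l h5).kg
    · rw [h5, kgL_len]
      exact ⟨hs, hst⟩
    · unfold kgL
      rw [if_neg (by omega), if_neg (by omega)]
      trivial
  obtain ⟨S', G, HT, hG, hgG, W, hQg⟩ := h1 ho hφ.2 hkg
  obtain ⟨al, g₀, s', d', e', K₁, N₁, hal, hg₀, hC⟩ := HT.cl
  have hl0 : LvL hn P P' o 0 g g = g := by
    rw [Pool.Z4.lvL_eq o (by omega)]
    exact H.toPk.act_diag hTop hF ho
  refine sta_of_pairs (H.lawL o κ.length) hg0 hg1 (hdia o ho κ.length hκn).1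
    fun K₀ del hK₀ hdel => ?_
  obtain ⟨P₂, θ₂, Eb, e₂, S₀, hS₀, W⟩ := W.recG HT hkg (fun l _ => rfl) (h0 ho) hl0 R.rwd.rdif
    R.defi hal hg₀ ⟨s', d', e', K₁, N₁, hC⟩
  obtain ⟨K, N, A, V, hK, hAV, hc⟩ := hcls (SlL hn P P' o g) hφ.1 (fun l hl => by
    have h3 := hk l hl
    refine ⟨fun h4 => ?_, fun h4 => ?_, fun h4 => ?_⟩
    · rw [h4] at h3
      exact h3
    · rw [h4] at h3
      exact h3.1
    · rw [h4] at h3
      exact h3.1) hs (h1s o ho) al hal (K₀ + del) (by linarith) del hdel S₀ hS₀ S' g₀ (P' o.2)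
    (tht o.2) (cc hn o.1.1) P r (LvL hn P P' o) (LvT hn PB o) G g hG hgG
    (fun l hl => (hdia o ho l (by omega)).1.hasDerivAt) hQg
  obtain ⟨S₂, hS₂, W⟩ := W K₀ K N A V (by linarith) hK hAV del hdel
  obtain ⟨K', N', V', hKK, hV', ε, q₂, hε, hq₂, hc⟩ := hc S₂ hS₂
  obtain ⟨q₁, hq₁, W⟩ := W K' N' V' hKK hV' ε hε
  refine ⟨min q₁ q₂, lt_min hq₁ hq₂, fun q u hq hq' hu => ?_⟩
  obtain ⟨t, ht1, ht2, hR⟩ := W q u hq (hq'.trans_le (min_le_left _ _)) hu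
  exact ⟨t, ht1, ht2, hc P₂ θ₂ Eb e₂ q t (hq'.trans_le (min_le_right _ _)) hR⟩

/-- **A cell at the windows where the swapped list exists**, all classes, slopes with `φ`. -/
def LCellR (n k : ℕ) (φ : (ℕ → ℝ) → Prop) (κ : List Kd) : Prop :=
  (∀ k, 2 ≤ k → k < n → Ext0 k) →
  Tol fun η => AllC n η fun {hn} {_} {P} {_} {P'} {Λ} {_} H hTop hF h =>
    CellX H hTop hF h (fun o g => φ (SlL hn P P' o g) ∧ TwA hn P P' Λ k o g) κ

/-- **The cell for all classes, slopes with `φ`, from its class theorem at a window**, with a property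
which may depend on the rate. -/
theorem lCellR_gih {k : ℕ} {κ : List Kd} (hκn : κ.length ≤ n - 1) (φ : (ℕ → ℝ) → Prop)
    (H : ∀ h : ℝ, 0 < h → h ≤ 1 → ∃ (ι : Type) (_ : Countable ι) (Q : PropG n ι),
      ((∀ k, 1 ≤ k → k < n → FZX k) → AeRs n k Q) ∧
      ∀ Sl : ℕ → ℝ, φ Sl → (∀ (l : ℕ) (hl : l < κ.length), 
        (κ[l] = .one → Sl l = 1) ∧ (κ[l] = .thin → 1 < Sl l) ∧ (κ[l] = .sta → 2 ≤ Sl l)) →
        2 < Sl κ.length → (∀ l < n, 1 ≤ Sl l) → CelQI n κ.length h Sl (kgL κ) Q) :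
    LCellR n k φ κ := fun _ => by
  refine (Tol.le (1 / 2) (by norm_num)).mono fun η hη => ?_
  intro hn hZ hF hTop D hD hD1 _ S P r P' Λ PB H'
  have h1 := hη D hD
  obtain ⟨ι, hι, Q, hQ, hcls⟩ := H ((1 - η D) * D) (mul_pos (by linarith) hD) (by nlinarith)
  exact cell_of_rsx (hQ hZ) H' hTop hF _ hκn φ hcls

end Pool.SWP
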