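import Pool.Agent.H57.SWB.Tsl
import Pool.Agent.H23.D2.Clg
import Pool.Agent.H3.SHE.Ts

/-!
# The cell `[one, sta, sta]` at all rough windows and the cell `[one, thin, sta]`

`LCellP`: a cell at the rough windows whose slopes satisfy a condition. `lCellA_1ss`: the cell
`[one, sta, sta]` at all rough windows. `lCellS_tsT`, `c1ts_she`: the cell `[one, thin, sta]` from the
supply of the second packages.
-/

set_option autoImplicit false

namespace Pool.SWP

open MeasureTheory Set Filter Topology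
open Pool.Agent.H49.Ent Pool.Agent.H32.Dense Pool.STK Pool.KA Pool.KSAT Pool.K2S Pool.PB
open Pool.GEN Pool.S6C Pool.STAT Pool.CHT Pool.GRW Pool.PKG Pool.SW Pool.STA
open Pool.ONE (Ext0 Ext)
open Pool.MIC6 Pool.ASM
open Pool.TN (cellQ_s1 cellQ_s2 cellQ_s3)

/-- **The cell `κ`** at all rough windows whose slopes satisfy `φ`, all classes. -/
def LCellP (n : ℕ) (φ : (ℕ → ℝ) → Prop) (κ : List Kd) : Prop := (∀ k, 2 ≤ k → k < n → Ext0 k) →
  Tol fun η => AllC n η fun {hn} {_} {P} {_} {P'} {_} {_} H hTop hF h =>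
    CellX H hTop hF h (fun o g => φ (SlL hn P P' o g)) κ

/-- **The cell from the part**, at all rough windows. -/
theorem partH_lP {n : ℕ} {φ : (ℕ → ℝ) → Prop} {κ : List Kd} (H : PartH n φ κ)
    (hκn : κ.length ≤ n - 1) : LCellP n φ κ := fun _ => by
  refine (Tol.le (1 / 2) (by norm_num)).mono fun η hη => ?_
  intro hn hZ hF hTop D hD hD1 _ S P r P' Λ PB H'
  have h1 := hη D hD
  obtain ⟨ι, hι, Q, hQ, hcls⟩ := H ((1 - η D) * D) (mul_pos (by linarith) hD) (by nlinarith)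
  exact cell_of_gix (hQ hZ) H' hTop hF _ hκn φ hcls

/-- **A case distinction**, all classes. -/
theorem LCellP.or {n : ℕ} {κ : List Kd} {φ φ' : (ℕ → ℝ) → Prop} (h : LCellP n φ κ)
    (h' : LCellP n φ' κ) : LCellP n (fun Sl => φ Sl ∨ φ' Sl) κ := fun hi => by
  refine ((h hi).and (h' hi)).mono fun η h1 => ?_
  intro hn hZ hF hTop D hD hD1 hE S P r P' Λ PB H o
  filter_upwards [h1.1 hn hZ hF hTop D hD hD1 hE S P r P' Λ PB H o,
    h1.2 hn hZ hF hTop D hD hD1 hE S P r P' Λ PB H o] with g k1 k2 R hX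
  rcases hX with h3 | h3
  · exact k1 R h3
  · exact k2 R h3

/-- **The cell at all rough windows** from a case distinction which is complete for the slopes of the
cell. -/
theorem LCellP.a {n : ℕ} {κ : List Kd} {φ : (ℕ → ℝ) → Prop} (h : LCellP n φ κ)
    (hφ : ∀ Sl : ℕ → ℝ, SlK κ Sl → 2 < Sl κ.length → φ Sl) : LCellA n κ := fun hi => by
  refine (h hi).mono fun η h1 => ?_
  intro hn hZ hF hTop D hD hD1 hE S P r P' Λ PB H o
  filter_upwards [h1 hn hZ hF hTop D hD hD1 hE S P r P' Λ PB H o] with g k1 R hth hk hs hst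
  refine k1 R (hφ _ (fun l hl => ?_) hs) hth hk hs hst
  have h3 := hk l hl
  refine ⟨fun h4 => ?_, fun h4 => ?_, fun h4 => ?_⟩
  · rw [h4] at h3
    exact h3
  · rw [h4] at h3
    exact h3.1
  · rw [h4] at h3
    exact h3.1

/-- **The cell** `[one, sta, sta]` at all rough windows. -/
theorem lCellA_1ss : LCellA 4 [Kd.one, Kd.sta, Kd.sta] := by
  have H1 : LCellP 4 (fun Sl => 2 < Sl 1 ∨ Sl 1 = 2 ∧ 2 < Sl 2) [Kd.one, Kd.sta, Kd.sta] := by
    refine partH_lP (partH_cellQ rfl fun Sl hφ hk h2 => ?_) (by show 3 ≤ 4 - 1; omega)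
    have k0 : Sl 0 = 1 := (hk 0 (by norm_num)).1 rfl
    have k2 : 2 ≤ Sl 2 := (hk 2 (by norm_num)).2.2 rfl
    rcases hφ with h3 | ⟨h3, h4⟩
    · exact cellQ_s1 rfl rfl k0 h3 (by linarith)
    · by_cases h5 : Sl 2 = 3
      · exact cellQ_s3 rfl rfl rfl k0 h3 h5
      · exact cellQ_s2 rfl rfl rfl k0 h3 h4 h5
  refine (H1.or (partH_lP partH_ss (by show 3 ≤ 4 - 1; omega))).a fun Sl hk h2 => ?_
  have k1 : 2 ≤ Sl 1 := (hk 1 (by norm_num)).2.2 rfl
  have k2 : 2 ≤ Sl 2 := (hk 2 (by norm_num)).2.2 rfl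
  rcases lt_or_eq_of_le k1 with h3 | h3
  · exact Or.inl (Or.inl h3)
  rcases lt_or_eq_of_le k2 with h4 | h4
  · exact Or.inl (Or.inr ⟨h3.symm, h4⟩)
  · exact Or.inr ⟨h3.symm, h4.symm⟩

/-- **The cell** `[one, thin, sta]` at the windows where the swapped list exists, the slopes of 3's
plan. -/
theorem lCellR_slTS : LCellR 4 1 Pool.SHE3.SlTS [Kd.one, Kd.thin, Kd.sta] := fun hi => by
  refine (lCellR_ts2 hi).mono fun η h1 => ?_
  intro hn hZ hF hTop D hD hD1 hE S P r P' Λ PB H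
  exact (h1 hn hZ hF hTop D hD hD1 hE S P r P' Λ PB H).mono fun o g hx =>
    ⟨⟨hx.1.2.1, hx.1.1, hx.1.2.2⟩, hx.2⟩

/-- **The cell** `[one, thin, sta]`, static slope two, thin slope above two, critical slope of the
target, from the supply of the second packages. -/
theorem lCellS_tsT (hT : Pool.SHE3.LSheT Pool.SHE3.SlTS) :
    LCellS 4 Pool.SHE3.SlTS [Kd.one, Kd.thin, Kd.sta] :=
  Pool.SHE3.lCellS_ts Pool.SHE3.slT_ts lCellR_slTS lCellA_1ss hT

/-- **The cell** `[one, thin, sta]` of the assembly, from the supply of the second packages. -/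
theorem c1ts_she (hT : Pool.SHE3.LSheT Pool.SHE3.SlTS) : LCellM 4 [Kd.one, Kd.thin, Kd.sta] :=
  c1ts_of ((lCellS_tsT hT).mono fun Sl h => by
    obtain ⟨h1, h2, h3⟩ := h
    exact ⟨h1, by linarith, h3⟩)

end Pool.SWP
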