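import Pool.Agent.H57.SWB.Aes
import Pool.Agent.H71.FUL.Fue

/-!
# The moved place 2 of the swapped list is full at almost every window

`aeSw_vful`: 71's `aePG_vful` for the swapped list.
-/

set_option autoImplicit false

namespace Pool.SWP

open Finset Real MvPolynomial MeasureTheory Filter Topology
open Pool.Agent.H49.Ent Pool.Agent.H32.Dense Pool.STK Pool.KA Pool.KSAT Pool.K2S Pool.PB Pool.S6C
open Pool.GEN Pool.CHT Pool.CHX Pool.ISO Pool.RCD Pool.LA91 Pool.AVG96 Pool.AVG50 Pool.CDX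
open Pool.PKG Pool.OWN68 Pool.OWN83 Pool.D2F2 Pool.AVG57 Pool.FUL95 Pool.FUL71
open Pool.TOP (TopS)

/-- **The moved place 2 is full**, for the swapped list, from the fullness of the places `1`, `2`
behind their own paths. -/
theorem aeSw_vful {n : ℕ} (hn4 : 4 ≤ n) {Φ : (ℕ → ℝ) → Prop}
    (hful : AeSw n 1 (FulQ Φ : PropG n Unit)) :
    AeSw n 1 (VfQ 2 (fun Sl => Φ Sl ∧ Sl 1 ≤ Sl 2) : PropG n Unit) := by
  intro hn S P r P' Λ PB PQ H hTop hF o G hG hGs hdg hsw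
  obtain ⟨S₂, b1, b2, b3⟩ := asmC_sw H.toPkT hTop hF hG hGs le_rfl (by omega) hsw (v := 2)
    (by norm_num) (by omega)
  have H₂ := H.sub b1 b2
  obtain ⟨S₃, c1, c2, c3⟩ := hful hn S₂ P r P' Λ PB PQ H₂ hTop hF o G hG hGs hdg
    fun w hw => (hsw w hw).sub b2
  refine ⟨S₃, c1, fun τ J F A h => b2 τ J F A (c2 τ J F A h), ?_⟩
  obtain ⟨c, hc⟩ : ∃ c : ℕ → Fin n, c = fun l => cc hn o.1.1 (sw 1 l) := ⟨_, rfl⟩
  obtain ⟨sn, hsn⟩ : ∃ sn : ℝ → ℕ → ℝ, sn = fun w l => LvL hn P P' o (sw 1 l) w w := ⟨_, rfl⟩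
  rw [← hc, ← hsn] at b3
  have hall : ∀ᵐ g : ℝ, ∀ x : {x : ℚ × ℚ × ℚ // 0 ≤ x.1 ∧ 0 < x.2.2 ∧ x.2.1 + x.2.2 ≤ 1},
      (x.1.1 : ℝ) < g → g < x.1.2.1 → ∀ Sl : ℕ → ℝ,
      SlpG sn 1 3 G g Sl → Sl 1 ≤ Sl 2 → FulG S₃ c sn G g →
      VfG S₃ c 1 2 x.1.1 x.1.2.1 x.1.2.2 sn G g Sl := by
    rw [ae_all_iff]
    rintro ⟨⟨A, B, Λ'⟩, k1, k2, k3⟩
    have k1' : (0 : ℝ) ≤ (A : ℝ) := by exact_mod_cast k1
    have k2' : (0 : ℝ) < (Λ' : ℝ) := by exact_mod_cast k2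
    have k3' : (B : ℝ) + Λ' ≤ 1 := by exact_mod_cast k3
    by_cases hAB : (A : ℝ) < B
    · exact vfG_ful ((b3 A B Λ' k1' k2' k3' (by linarith) (by linarith)).sub c1 c2)
    · exact Eventually.of_forall fun g h1 h2 => absurd (h1.trans h2) hAB
  filter_upwards [hall, gap_ae hG, c3] with g h1 h2 h3 hg κ hκ p
  rw [← hc] at h3 ⊢
  refine ⟨0, fun Sl hd hΦ hS A B Λ' hA hAg hgB hΛ hB => ?_⟩
  obtain ⟨_, h4⟩ := h3 hg κ hκ p
  have h5 := h4 Sl hd hΦ.1 hS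
  have e1 : (fun w l => (fun l => LvL hn P P' o (sw 1 l)) l w w) = sn := by rw [hsn]
  rw [e1] at h5 ⊢
  have hslp : SlpG sn 1 3 G g Sl :=
    slpG_of (fun l l0 l1 => by linarith [hS l l0 l1]) (fun l l0 l1 => hS l l0 (by omega))
      (fun l l0 l1 => by
        rw [hsn]
        exact (hd l l0 l1).hasDerivWithinAt) (h2 hg)
  exact h1 ⟨(A, B, Λ'), hA, hΛ, hB⟩ hAg hgB Sl hslp hΦ.2 h5

end Pool.SWP
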