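import Pool.Agent.H57.AVG.Cgp
import Pool.Agent.H3.SWP.Swg

/-!
# The data of the class for the swapped list

`asmC_sw`: the data `AsmC` for the list with the places `k` and `k + 1` swapped, in one subclass, for a
closed set of good windows where the coordinate of the place `k + 1` has closed labels of its level over
the places before `k`.
-/

set_option autoImplicit false

namespace Pool.SWP

open Finset Real MvPolynomial MeasureTheory Filter Topology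
open Pool.Agent.H49.Ent Pool.Agent.H32.Dense Pool.STK Pool.KA Pool.KSAT Pool.K2S Pool.PB Pool.S6C
open Pool.GEN Pool.CHT Pool.CHX Pool.ISO Pool.RCD Pool.LA91 Pool.AVG96 Pool.AVG50 Pool.CDX
open Pool.PKG Pool.OWN68 Pool.OWN83 Pool.D2F2 Pool.AVG57
open Pool.TOP (TopS)

variable {n : ℕ} {hn : 2 ≤ n} {S : PCl n} {P : ℝ → ℝ → ℝ} {rr : ℝ → ℝ}
  {P' : ℕ → List (Fin n) × Fin n → ℝ → ℝ → ℝ} {Λ : Finset (Fin n) → Fin n → ℝ → ℝ → ℝ}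
  {PB : ℕ → List (Fin n) × Fin n → ℝ → ℝ → ℝ} {PQ : ℚ → List (Fin n) × Fin n → ℝ → ℝ → ℝ}

/-- **The data of the class for the swapped list**, for all parameters, in one subclass. -/
theorem asmC_sw (H : PkT hn S P rr P' Λ PB) (hTop : TopS n) (hF : FZX (n - 1)) {o : Od n}
    {G : Set ℝ} (hG : IsClosed G) (hGs : G ⊆ Gs P rr P' Λ o) {k : ℕ} (hk0 : 1 ≤ k)
    (hk : k + 1 < n - 1) (hsw : ∀ w ∈ G, SwA S (cc hn o.1.1) (LvL hn P P' o) k w) {v : ℕ}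
    (hv1 : 1 ≤ v) (hv : v + 1 ≤ n - 1) :
    ∃ S' : PCl n, S'.Ne ∧
      (∀ (τ : ℝ) (J : ℕ) (F : Fam n J) (A : F.Ω → Prop), S'.St τ J F A → S.St τ J F A) ∧
      ∀ A B Λ' : ℝ, 0 ≤ A → 0 < Λ' → B + Λ' ≤ 1 → B ≤ 1 → Λ' ≤ 1 →
        AsmC S' (fun l => cc hn o.1.1 (sw k l)) 1 v 0 A B Λ'
          (fun w l => LvL hn P P' o (sw k l) w w) G := by
  obtain ⟨S₁, a1, a2, a3⟩ := gch_sw H hTop hF
  obtain ⟨c', hc'⟩ : ∃ c' : ℕ → Fin n, c' = fun l => cc hn o.1.1 (sw k l) := ⟨_, rfl⟩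
  obtain ⟨sn, hsn⟩ : ∃ sn : ℝ → ℕ → ℝ, sn = fun w l => LvL hn P P' o (sw k l) w w := ⟨_, rfl⟩
  have him : (range 1).image c' = (range 1).image (cc hn o.1.1) := by
    rw [hc']
    exact img_sw (cc hn o.1.1) (Or.inl hk0)
  have hpos : ∀ (τ : ℝ) (J : ℕ) (F : Fam n J) (A : F.Ω → Prop), S.St τ J F A →
      0 < Pe F.p A := by
    obtain ⟨al, g₀, s, d, e, K₀, N, hal, hg₀, hC⟩ := H.toPk.cl
    exact fun τ J F A h => hC.pos τ J F A h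
  have hM : Bas S (fun J F A => (cnt F.p (ptr F J) A : ℝ) ≤ Real.exp ((4 * n + 1) * J)) := by
    obtain ⟨al, g₀, s, d, e, K₀, N, hal, hg₀, hC⟩ := H.toPk.cl
    exact Bas.mono 0 hC.cnt fun J _ F A h => h J le_rfl
  obtain ⟨S₂, b1, b2, η, hη⟩ := rnum_sh a1 (fun τ J F A h => hpos τ J F A (a2 τ J F A h))
    (hM.sub a2) 0
  -- the class at all parameters
  have key : ∀ {S' : PCl n}, S'.Ne →
      (∀ (τ : ℝ) (J : ℕ) (F : Fam n J) (A : F.Ω → Prop), S'.St τ J F A → S₂.St τ J F A) →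
      ∀ {A B Λ' : ℝ}, 0 ≤ A → 0 < Λ' → ∀ {γ : ∀ J : ℕ, Fam n J → Type}
        {y : ∀ (J : ℕ) (F : Fam n J), F.Ω → γ J F},
        (∃ p₀ lam : ℝ, p₀ ≤ 1 ∧ Λ' ≤ lam ∧ B + Λ' ≤ p₀ ∧
          Kn ((range 1).image c') p₀ lam y) →
        GCh S' (fun J F => ptr F J) y c' 1 (v + 1) 0 A B Λ' sn G := by
    intro S' hne hs A B Λ' hA hΛ γ y hkn
    rw [him] at hkn
    rw [hc', hsn]
    exact a3 hne (fun τ J F A h => b2 τ J F A (hs τ J F A h)) hG hGs hk0 hk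
      (fun w hw => (hsw w hw).sub fun τ J F A h => a2 τ J F A (b2 τ J F A (hs τ J F A h)))
      (by omega) hv (fun w => (hη w).sub hs) hA hΛ hkn
  have hposi : ∀ {S' : PCl n},
      (∀ (τ : ℝ) (J : ℕ) (F : Fam n J) (A : F.Ω → Prop), S'.St τ J F A → S₂.St τ J F A) →
      ∀ (τ : ℝ) (J : ℕ) (F : Fam n J) (A : F.Ω → Prop), S'.St τ J F A → 0 < Pe F.p A :=
    fun hs τ J F A h => hpos τ J F A (a2 τ J F A (b2 τ J F A (hs τ J F A h)))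
  obtain ⟨S₃, c1, c2, θ, c3⟩ := velN_cls (f := fun (J : ℕ) (F : Fam n J) => ptr F J) b1
    (hposi fun _ _ _ _ h => h) ((range 1).image c') 0 0 1
  obtain ⟨S₄, d1, d2, d3⟩ := vnum_clsM (ι := {x : ℚ × ℚ × ℚ × ℚ × ℚ //
      IxV 0 1 1 x.1 x.2.1 x.2.2.1 x.2.2.2.1 x.2.2.2.2})
    (f := fun (J : ℕ) (F : Fam n J) => ptr F J) (c := c') (r₀ := 1) (r := v + 1)
    (s := 0) c1 (hposi c2) _
    (fun x => yT ((range 1).image c') x.1.2.2.2.1 x.1.2.2.2.2)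
    (fun x => PG G x.1.1 0) (fun x => (x.1.2.1 : ℝ) - 0) (fun x => x.1.2.2.1)
    (fun x => whG G x.1.1 0) (fun x => scG sn G x.1.1 0)
    (fun x A' hA' => (key (γ := _) (y := yT ((range 1).image c') x.1.2.2.2.1
      x.1.2.2.2.2) c1 c2 x.2.hA x.2.h0 ⟨x.1.2.2.2.1, x.1.2.2.2.2, x.2.p1, x.2.pm, x.2.p0,
        fun _ _ => ⟨fun z => z, fun _ => rfl⟩⟩).nch hA')
    (by omega) OWN83.exs_unit (fun _ _ _ _ _ _ => few_fn_self (hposi c2))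
  have d2' : ∀ (τ : ℝ) (J : ℕ) (F : Fam n J) (A : F.Ω → Prop), S₄.St τ J F A →
      S₂.St τ J F A := fun τ J F A h => c2 τ J F A (d2 τ J F A h)
  obtain ⟨S₅, e1, e2, e3⟩ := hnum_clsM (ι := {x : ℚ × ℚ × ℚ × ℚ × ℚ //
      IxV 0 1 1 x.1 x.2.1 x.2.2.1 x.2.2.2.1 x.2.2.2.2})
    (f := fun (J : ℕ) (F : Fam n J) => ptr F J) (c := c') (r₀ := 1) (r := v + 1)
    (s := 0) d1 (hposi d2') (fun _ _ _ => _)
    (fun x => yZT ((range 1).image c') x.1.2.2.2.1 x.1.2.2.2.2)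
    (fun x => PG G x.1.1 0) (fun x => (x.1.2.1 : ℝ) - 0) (fun x => x.1.2.2.1)
    (fun x => whG G x.1.1 0) (fun x => scG sn G x.1.1 0)
    (fun x A' hA' => (key (γ := _) (y := yZT ((range 1).image c') x.1.2.2.2.1
      x.1.2.2.2.2) d1 d2' x.2.hA x.2.h0 ⟨x.1.2.2.2.1, x.1.2.2.2.2, x.2.p1, x.2.pm, x.2.p0,
        kn_yZT⟩).nch hA')
  have e2' : ∀ (τ : ℝ) (J : ℕ) (F : Fam n J) (A : F.Ω → Prop), S₅.St τ J F A →
      S₂.St τ J F A := fun τ J F A h => d2' τ J F A (e2 τ J F A h)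
  refine ⟨S₅, e1, fun τ J F A h => a2 τ J F A (b2 τ J F A (e2' τ J F A h)), ?_⟩
  intro A B Λ' hA hΛ hBΛ hB1 hΛ1
  rw [← hc', ← hsn]
  exact {
    gch := ⟨_, yZT ((range 1).image c') 1 1, key e1 e2' hA hΛ
      ⟨1, 1, le_rfl, hΛ1, hBΛ, kn_yZT⟩⟩
    vel := ⟨θ, fun k q h1 h2 => ((c3 k q (hA.trans_lt h1) (h2.trans_le hB1)).sub d2).sub e2⟩
    vnum := fun A₁ B₁ Λ₁ p₀ lam hx =>
      (d3 ⟨(A₁, B₁, Λ₁, p₀, lam), ixV_mono hx hA hB1 hΛ1⟩).sub e2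
    hnum := fun A₁ B₁ Λ₁ p₀ lam hx =>
      e3 ⟨(A₁, B₁, Λ₁, p₀, lam), ixV_mono hx hA hB1 hΛ1⟩
    atv := fun w hw _ _ => (atV_of H.toPk.lam (hGs hw).1.1.1 (hGs hw).1.1.2.1.le).sub
      fun τ J F A h => a2 τ J F A (b2 τ J F A (e2' τ J F A h))
    sn0 := fun w hw _ _ => by
      have h1 : sw k 1 < n - 1 := sw_mem (Or.inr hk) (by omega)
      have h3 : 1 ≤ sw k 1 := by
        unfold sw
        split_ifs <;> omega
      obtain ⟨u₁, rd, -, h2⟩ := gs_chn1 H.toPk hTop hF (hGs hw) (i := n - 1) (by omega) le_rfl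
      rw [hsn]
      exact (h2.s0 (sw k 1) h3 h1).1 }

end Pool.SWP
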