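import Pool.Agent.H57.SWB.Afo
import Pool.Agent.H3.D2G.Afq

/-!
# Properties of the windows for the swapped list

`AeSw`: a property of the windows holds for the list with the places `k` and `k + 1` swapped, at almost
every window of each closed set of good windows where the coordinate of the place `k + 1` has closed
labels of its level over the places before `k`. `aeSw_af`: affine labels of the swapped places.
-/

set_option autoImplicit false

namespace Pool.SWP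

open Finset Real MvPolynomial MeasureTheory Filter Topology
open Pool.Agent.H49.Ent Pool.Agent.H32.Dense Pool.STK Pool.KA Pool.KSAT Pool.K2S Pool.PB Pool.S6C
open Pool.GEN Pool.CHT Pool.CHX Pool.ISO Pool.RCD Pool.LA91 Pool.AVG96 Pool.AVG50 Pool.CDX
open Pool.PKG Pool.OWN68 Pool.OWN83 Pool.D2F2 Pool.AVG57
open Pool.TOP (TopS)
open Pool.OWN72 (epo cc_epo Ctw Dsc gs_act ctw_ae dns_pt dsc_pos)

/-- **The property holds at almost every window for the swapped list**, in a subclass. -/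
def AeSw (n k : ℕ) {ι : Type} (Q : PropG n ι) : Prop :=
  ∀ (hn : 2 ≤ n) (S : PCl n) (P : ℝ → ℝ → ℝ) (r : ℝ → ℝ)
    (P' : ℕ → List (Fin n) × Fin n → ℝ → ℝ → ℝ) (Λ : Finset (Fin n) → Fin n → ℝ → ℝ → ℝ)
    (PB : ℕ → List (Fin n) × Fin n → ℝ → ℝ → ℝ) (PQ : ℚ → List (Fin n) × Fin n → ℝ → ℝ → ℝ),
    PkB hn S P r P' Λ PB PQ → TopS n → FZX (n - 1) → ∀ (o : Od n) (G : Set ℝ), IsClosed G →
      G ⊆ Gs P r P' Λ o →
      (∀ w ∈ G, LvL hn P P' o (k + 1) w w ≤
        Λ ((range k).image (cc hn o.1.1)) (cc hn o.1.1 (k + 1)) w w) →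
      (∀ w ∈ G, SwA S (cc hn o.1.1) (LvL hn P P' o) k w) → ∃ S' : PCl n, S'.Ne ∧
        (∀ (τ : ℝ) (J : ℕ) (F : Fam n J) (A : F.Ω → Prop), S'.St τ J F A → S.St τ J F A) ∧
        ∀ᵐ g : ℝ, g ∈ G → ∀ κ : ℕ → Kg, (∀ l < n, KgAt hn P P' PB o l g (κ l)) → ∀ p : ι,
          ∃ k₀ : ℕ, Q p k₀ S' (P' o.2) (tht o.2) (fun l => cc hn o.1.1 (sw k l)) P r
            (fun l => LvL hn P P' o (sw k l)) (fun l => LvT hn PB o (sw k l))
            (fun l => κ (sw k l)) G g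

/-- **Affine labels** of the places one and two. -/
def AfW {n : ℕ} (_ : Unit) (_ : ℕ) (S : PCl n) (_ : List (Fin n) × Fin n → ℝ → ℝ → ℝ) (_ : ℝ)
    (c : ℕ → Fin n) (_ : ℝ → ℝ → ℝ) (_ : ℝ → ℝ) (L _ : ℕ → ℝ → ℝ → ℝ) (_ : ℕ → Kg)
    (G : Set ℝ) (x : ℝ) : Prop :=
  1 < deriv (fun a => L 1 a a) x → 1 < deriv (fun a => L 2 a a) x →
    AfG S c (fun w l => L l w w) G x 1 ∧ AfG S c (fun w l => L l w w) G x 2

/-- **Affine labels of the swapped places.** -/
theorem aeSw_af {n : ℕ} (hn3 : 2 < n - 1) : AeSw n 1 (AfW : PropG n Unit) := by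
  intro hn S P r P' Λ PB PQ H hTop hF o G hG hGs hdg hsw
  obtain ⟨S₁, a1, a2, a3⟩ := aePG_af n hn S P r P' Λ PB PQ H hTop hF o G hG hGs
  have H₁ := H.sub a1 a2
  obtain ⟨c, hc⟩ : ∃ c : ℕ → Fin n, c = fun l => cc hn o.1.1 (sw 1 l) := ⟨_, rfl⟩
  obtain ⟨sn, hsn⟩ : ∃ sn : ℝ → ℕ → ℝ, sn = fun w l => LvL hn P P' o (sw 1 l) w w := ⟨_, rfl⟩
  have s0 : sw 1 0 = 0 := sw_lt one_pos
  have s1 : sw 1 1 = 2 := sw_k 1
  have s2 : sw 1 2 = 1 := sw_k1 1
  have c0 : c 0 = cc hn o.1.1 0 := by rw [hc]; show cc hn o.1.1 (sw 1 0) = _; rw [s0]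
  have c1 : c 1 = cc hn o.1.1 2 := by rw [hc]; show cc hn o.1.1 (sw 1 1) = _; rw [s1]
  have c2 : c 2 = cc hn o.1.1 1 := by rw [hc]; show cc hn o.1.1 (sw 1 2) = _; rw [s2]
  have n1 : ∀ w, sn w 1 = LvL hn P P' o 2 w w := fun w => by
    rw [hsn]; show LvL hn P P' o (sw 1 1) w w = _; rw [s1]
  have n2 : ∀ w, sn w 2 = LvL hn P P' o 1 w w := fun w => by
    rw [hsn]; show LvL hn P P' o (sw 1 2) w w = _; rw [s2]
  have h01 : c 0 ≠ c 1 := fun h => by
    rw [c0, c1] at h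
    have := cc_inj' hn o.1.1 (i := 0) (j := 2) (by omega) (by omega) h
    omega
  obtain ⟨S', b1, b2, b3⟩ := afG_one H₁.toPk.ne (by norm_num) H₁.toPk.tmc H₁.toPk.lam h01
    (by rw [c0]; exact gs_act H₁.toPk o)
  refine ⟨S', b1, fun τ J F A h => a2 τ J F A (b2 τ J F A h), ?_⟩
  have hct : ∀ᵐ g : ℝ, g ∈ Ctw Λ := by
    have h1 := (ctw_ae (Λ := Λ) H.toPk.lam).ae_notMem volume
    filter_upwards [h1] with g hg
    by_contra hcon
    exact hg hcon
  filter_upwards [a3, hct, dns_pt (G ∩ Ctw Λ), gap_ae hG, H.toPkT.dia_all H.pble hTop hF,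
    sl_one H.toPkT hTop hF] with g h3 kct kdn kgap kdia ksl hg κ hκ p
  refine ⟨0, fun hs1 hs2 => ?_⟩
  have hgG := hGs hg
  have hds : Dsc (G ∩ Ctw Λ) g := kdn ⟨hg, kct⟩
  have hsub : G ∩ Ctw Λ ⊆ Gs P r P' Λ o ∩ Ctw Λ := fun x hx => ⟨hGs hx.1, hx.2⟩
  have hder : ∀ l, l ≤ n - 1 → HasDerivAt (fun a => LvL hn P P' o l a a)
      (deriv (fun a => LvL hn P P' o l a a) g) g := fun l hl =>
    (kdia o hgG l hl).1.hasDerivAt
  have hv1 : 1 < deriv (fun a => LvL hn P P' o 2 a a) g := by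
    have e1 : (fun a => LvL hn P P' o (sw 1 1) a a) = fun a => LvL hn P P' o 2 a a := by rw [s1]
    rw [← e1]
    exact hs1
  have hu1 : 1 < deriv (fun a => LvL hn P P' o 1 a a) g := by
    have e1 : (fun a => LvL hn P P' o (sw 1 2) a a) = fun a => LvL hn P P' o 1 a a := by rw [s2]
    rw [← e1]
    exact hs2
  obtain ⟨Sl, hSl⟩ : ∃ Sl : ℕ → ℝ, Sl = fun l => deriv (fun a => LvL hn P P' o (sw 1 l) a a) g :=
    ⟨_, rfl⟩
  have hsl : ∀ l, 1 ≤ l → l ≤ 2 → 1 < Sl l ∧ HasDerivAt (fun a => sn a l) (Sl l) g := by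
    intro l l0 l1
    have : l = 1 ∨ l = 2 := by omega
    rw [hSl, hsn]
    rcases this with rfl | rfl
    · exact ⟨hs1, by
        show HasDerivAt (fun a => LvL hn P P' o (sw 1 1) a a)
          (deriv (fun a => LvL hn P P' o (sw 1 1) a a) g) g
        rw [s1]
        exact hder 2 (by omega)⟩
    · exact ⟨hs2, by
        show HasDerivAt (fun a => LvL hn P P' o (sw 1 2) a a)
          (deriv (fun a => LvL hn P P' o (sw 1 2) a a) g) g
        rw [s2]
        exact hder 1 (by omega)⟩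
  have hnn : ∀ l, 1 ≤ l → l ≤ 2 → 0 ≤ Sl l := fun l l0 l1 => by
    have := (hsl l l0 l1).1
    linarith
  have hSG : SlpG sn 1 2 G g Sl := slpG_of hnn (fun l l0 l1 => (hsl l l0 l1.le).1)
    (fun l l0 l1 => (hsl l l0 l1).2.hasDerivWithinAt) (kgap hg)
  have hSG' : SlpG sn 1 2 (G ∩ Ctw Λ) g Sl := slpG_of hnn (fun l l0 l1 => (hsl l l0 l1.le).1)
    (fun l l0 l1 => (hsl l l0 l1).2.hasDerivWithinAt) (gap_dsc hds)
  -- the levels at `g`
  have hle : ∀ a ∈ Gs P r P' Λ o, a ≤ LvL hn P P' o 1 a a := fun a ha => by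
    rw [gs_lvl H.toPk hTop hF ha (by omega)]
    exact le_vs H.toPk.lam (epo hn o) ha.1.1.2.1.le _
  have hlo : g < LvL hn P P' o 1 g g := by
    have h5 := dsc_pos hds (f := fun a => LvL hn P P' o 1 a a - a)
      (s := deriv (fun a => LvL hn P P' o 1 a a) g - 1)
      ((hder 1 (by omega)).sub (hasDerivAt_id g)) (by linarith)
      (fun a ha => by
        have := hle a (hGs ha.1)
        show 0 ≤ LvL hn P P' o 1 a a - a
        linarith) (by
        have := hle g hgG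
        show 0 ≤ LvL hn P P' o 1 g g - g
        linarith)
    have h6 : 0 < LvL hn P P' o 1 g g - g := h5
    linarith
  have hlo2 : LvL hn P P' o 1 g g ≤ LvL hn P P' o 2 g g := by
    rw [gs_lvl H.toPk hTop hF hgG (by omega), gs_lvl H.toPk hTop hF hgG hn3]
    have h1 : Vgr Λ (epo hn o) g := hgG.1.1.2.2.1
    exact h1.mono H.toPk.lam hgG.1.1.2.1.le (by omega)
  obtain ⟨ρ₀, hρ₀, h6⟩ := near_two H.toPk hTop hF hn3 hsub hds hu1 (hder 1 (by omega)) hlo
  have im1 : (range 1).image (cc hn o.1.1) = {cc hn o.1.1 0} := by simp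
  -- the place `1` of the swapped list
  have h7 : AfG S' c sn (G ∩ Ctw Λ) g 1 := by
    refine b3 hSG' ⟨hg, kct⟩ le_rfl le_rfl hρ₀ (fun w hw w1 w2 => ?_) (fun w hw w1 w2 => ?_)
      hgG.1.1.1 ?_ ?_ ?_
    · rw [n1, c0, c1]
      refine le_antisymm ?_ ?_
      · have := hdg w hw.1
        rw [im1] at this
        exact this
      · rw [h6 w hw w1 w2]
        exact H.toPk.lam.mono _ _ _ _ _ _ _ (Finset.singleton_subset_iff.2
          (Finset.mem_insert_self _ _)) le_rfl le_rfl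
    · rw [n2, c0, c1, c2, lev_one H.toPk hTop hF (hGs hw.1) (by omega)]
      exact H.toPk.lam.mono _ _ _ _ _ _ _ (Finset.singleton_subset_iff.2
        (Finset.mem_insert_self _ _)) le_rfl le_rfl
    · rw [n1]
      exact hlo.trans_le hlo2
    · rw [n2]
      exact hlo
    · rw [n1]
      exact lev_lt H.toPk hTop hF hgG hn3
  -- the place `2` of the swapped list
  have h8 : AfG S' c sn G g 2 := by
    obtain ⟨_, h9⟩ := h3 hg κ hκ ()
    refine afG_mono ((h9 hn3 hu1).1.sub b2) ?_ (by rw [c2]) (fun w _ => n2 w)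
    rw [im1]
    exact Finset.singleton_subset_iff.2 (mem_image.2 ⟨0, mem_range.2 two_pos, c0⟩)
  rw [← hc]
  show AfG S' c (fun w l => LvL hn P P' o (sw 1 l) w w) G g 1 ∧
    AfG S' c (fun w l => LvL hn P P' o (sw 1 l) w w) G g 2
  rw [← hsn]
  exact ⟨afG_big h7 hSG le_rfl (by norm_num) Set.inter_subset_left (gap_dsc hds), h8⟩

end Pool.SWP
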