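import Pool.Agent.H57.SWB.Acs

/-!
# Affine labels of the second coordinate over the first place alone

`gdw_nearW`: 71's `gdw_near` with a lower bound of the second number. `afG_one`: `AfG` for the place `1`
from the diagonal numbers. `afG_mono`: affine labels over more coordinates.
-/

set_option autoImplicit false

namespace Pool.SWP

open Finset Real MvPolynomial MeasureTheory
open Pool.Agent.H49.Ent Pool.Agent.H32.Dense Pool.STK Pool.KA Pool.KSAT Pool.K2S Pool.PB Pool.GEN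
open Pool.S6C Pool.RCD Pool.LA91 Pool.OWN68 Pool.CHT Pool.AVG96 Pool.CDX
open Pool.GRD (LbP)
open Pool.MIC6 (ActF her_sub)
open Pool.OWN17 (Gdw cht_cls cnt_L ChA cpl)

variable {m : ℕ}

/-- **The windows near a point are good** where the numbers are continuous; of the second number only a
lower bound is used. -/
theorem gdw_nearW {S : PCl m} {L : Finset (Fin m) → Fin m → ℝ → ℝ → ℝ} (hL : LamW S L)
    {y u v : Fin m} {r₀ r i : ℕ} {sn : ℝ → ℕ → ℝ} {G : Set ℝ} {g : ℝ} {Sl : ℕ → ℝ}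
    (hS : SlpG sn r₀ r G g Sl) (hgG : g ∈ G) (h0 : r₀ ≤ i) (hi : i + 1 ≤ r) {ρ₀ : ℝ}
    (hρ₀ : 0 < ρ₀)
    (h1 : ∀ w ∈ G, g - ρ₀ ≤ w → w ≤ g + ρ₀ → sn w i = L {y} u w w)
    (h2 : ∀ w ∈ G, g - ρ₀ ≤ w → w ≤ g + ρ₀ → sn w (i + 1) ≤ L {y, u} v w w) (hg0 : 0 < g)
    (hu : g < sn g i) (hv : g < sn g (i + 1)) (hu1 : sn g i < 1) :
    ∃ ρ : ℝ, 0 < ρ ∧ ρ ≤ ρ₀ ∧ ∀ t : ℝ, g - ρ < t → t < g + ρ →
      ContinuousAt (fun W => L {y} u W W) t → ContinuousAt (fun W => L {y, u} v W W) t →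
      Gdw L y u v t := by
  have hg1 := hS.gt i h0 (by omega)
  have hS2 := hS.nn (i + 1) (by omega) hi
  obtain ⟨σ, hσ⟩ : ∃ σ, σ = min (Sl i - 1) 1 := ⟨_, rfl⟩
  have hσ0 : 0 < σ := by rw [hσ]; exact lt_min (by linarith) one_pos
  have hσ1 : σ ≤ 1 := by rw [hσ]; exact min_le_right _ _
  have hσ2 : σ ≤ Sl i - 1 := by rw [hσ]; exact min_le_left _ _
  obtain ⟨M, hM⟩ : ∃ M : ℝ, M = Sl i + Sl (i + 1) + 2 := ⟨_, rfl⟩
  have hM0 : 0 < M := by linarith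
  obtain ⟨κ, hκ⟩ : ∃ κ, κ = σ / (64 * M) := ⟨_, rfl⟩
  have hκ0 : 0 < κ := by rw [hκ]; positivity
  have hMκ : M * κ = σ / 64 := by rw [hκ]; field_simp
  have hκ1 : κ ≤ 1 / 64 := by
    have : 1 * κ ≤ M * κ := mul_le_mul_of_nonneg_right (by linarith) hκ0.le
    linarith
  obtain ⟨ρ₁, hρ₁, H1⟩ := hS.sl i h0 (by omega) (σ / 64) (by positivity)
  obtain ⟨ρ₂, hρ₂, H2⟩ := hS.sl (i + 1) (by omega) hi (1 / 64) (by norm_num)
  obtain ⟨ρ₃, hρ₃, H3⟩ := hS.gap κ hκ0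
  obtain ⟨d, hd0, d1, d2, d3, d4⟩ : ∃ d : ℝ, 0 < d ∧ g + d ≤ sn g i ∧ g + d ≤ sn g (i + 1) ∧
      sn g i + d ≤ 1 ∧ d ≤ g := by
    refine ⟨min (min (sn g i - g) (sn g (i + 1) - g)) (min (1 - sn g i) g), ?_, ?_, ?_, ?_, ?_⟩
    · exact lt_min (lt_min (by linarith) (by linarith)) (lt_min (by linarith) hg0)
    · linarith [(min_le_left (min (sn g i - g) (sn g (i + 1) - g)) (min (1 - sn g i) g)).trans
        (min_le_left _ _)]
    · linarith [(min_le_left (min (sn g i - g) (sn g (i + 1) - g)) (min (1 - sn g i) g)).trans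
        (min_le_right _ _)]
    · linarith [(min_le_right (min (sn g i - g) (sn g (i + 1) - g)) (min (1 - sn g i) g)).trans
        (min_le_left _ _)]
    · exact (min_le_right _ _).trans (min_le_right _ _)
  obtain ⟨t₀, ht₀, t1, t2, t3, t4, t5⟩ : ∃ t₀ : ℝ, 0 < t₀ ∧ t₀ < ρ₁ ∧ t₀ < ρ₂ ∧ t₀ < ρ₃ ∧
      t₀ ≤ ρ₀ ∧ (M + 2) * t₀ ≤ d / 2 := by
    refine ⟨min (min (ρ₁ / 2) (ρ₂ / 2)) (min (ρ₃ / 2) (min ρ₀ (d / (2 * (M + 2))))),
      by positivity, ?_, ?_, ?_, ?_, ?_⟩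
    · exact lt_of_le_of_lt ((min_le_left _ _).trans (min_le_left _ _)) (by linarith)
    · exact lt_of_le_of_lt ((min_le_left _ _).trans (min_le_right _ _)) (by linarith)
    · exact lt_of_le_of_lt ((min_le_right _ _).trans (min_le_left _ _)) (by linarith)
    · exact (min_le_right _ _).trans ((min_le_right _ _).trans (min_le_left _ _))
    · have h5 : min (min (ρ₁ / 2) (ρ₂ / 2)) (min (ρ₃ / 2) (min ρ₀ (d / (2 * (M + 2))))) ≤
          d / (2 * (M + 2)) :=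
        (min_le_right _ _).trans ((min_le_right _ _).trans (min_le_right _ _))
      refine (mul_le_mul_of_nonneg_left h5 (by linarith)).trans (le_of_eq ?_)
      field_simp
  have hκt : κ * t₀ ≤ 1 / 64 * t₀ := mul_le_mul_of_nonneg_right hκ1 ht₀.le
  have hκt0 : 0 < κ * t₀ := by positivity
  refine ⟨κ * t₀, by positivity, by linarith, fun t ta tb hcu hcv => ?_⟩
  -- the windows of `G` around `t`
  obtain ⟨v₁, hv₁, v11, v12⟩ := H3 t₀ ht₀ t3 t (by linarith) (by linarith)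
  obtain ⟨v₂, hv₂, v21, v22⟩ := H3 t₀ ht₀ t3 (t + κ * t₀) (by linarith) (by linarith)
  obtain ⟨a₀, ha₀, a01, a02⟩ := H3 t₀ ht₀ t3 (g + t₀) (by linarith) (by linarith)
  have hS0 : 0 ≤ Sl i := by linarith
  have lowA : ∀ w ∈ G, g - t₀ ≤ w → w ≤ g + t₀ → sn g i - (M + 1) * t₀ ≤ sn w i := by
    intro w hw w1 w2
    rcases le_total w g with h5 | h5
    · have h6 := (abs_le.1 (H1 t₀ ht₀ t1 w hw g hgG w1 h5 (by linarith))).2
      have h7 : Sl i * (g - w) ≤ Sl i * t₀ := mul_le_mul_of_nonneg_left (by linarith) hS0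
      nlinarith [mul_pos hσ0 ht₀]
    · have h6 := (abs_le.1 (H1 t₀ ht₀ t1 g hgG w hw (by linarith) h5 w2)).1
      have h7 : 0 ≤ Sl i * (w - g) := mul_nonneg hS0 (by linarith)
      nlinarith [mul_pos hσ0 ht₀]
  have lowB : ∀ w ∈ G, g - t₀ ≤ w → w ≤ g + t₀ → sn g (i + 1) - (M + 1) * t₀ ≤
      sn w (i + 1) := by
    intro w hw w1 w2
    rcases le_total w g with h5 | h5
    · have h6 := (abs_le.1 (H2 t₀ ht₀ t2 w hw g hgG w1 h5 (by linarith))).2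
      have h7 : Sl (i + 1) * (g - w) ≤ Sl (i + 1) * t₀ :=
        mul_le_mul_of_nonneg_left (by linarith) hS2
      nlinarith
    · have h6 := (abs_le.1 (H2 t₀ ht₀ t2 g hgG w hw (by linarith) h5 w2)).1
      have h7 : 0 ≤ Sl (i + 1) * (w - g) := mul_nonneg hS2 (by linarith)
      nlinarith
  -- the number at `v₂`
  have upA : sn v₂ i ≤ sn g i + Sl i * (2 * (κ * t₀)) + σ / 64 * t₀ := by
    rcases le_total v₂ g with h5 | h5
    · have h6 := (abs_le.1 (H1 t₀ ht₀ t1 v₂ hv₂ g hgG (by linarith) h5 (by linarith))).1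
      have h7 : 0 ≤ Sl i * (g - v₂) := mul_nonneg hS0 (by linarith)
      have h8 : 0 ≤ Sl i * (2 * (κ * t₀)) := by positivity
      linarith
    · have h6 := (abs_le.1 (H1 t₀ ht₀ t1 g hgG v₂ hv₂ (by linarith) h5 (by linarith))).2
      have h7 : Sl i * (v₂ - g) ≤ Sl i * (2 * (κ * t₀)) :=
        mul_le_mul_of_nonneg_left (by linarith) hS0
      linarith
  have hMS : Sl i * (2 * (κ * t₀)) + 2 * (κ * t₀) ≤ σ / 32 * t₀ := by
    have h5 : (Sl i + 1) * (κ * t₀) ≤ M * (κ * t₀) :=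
      mul_le_mul_of_nonneg_right (by linarith) hκt0.le
    have h6 : M * (κ * t₀) = σ / 64 * t₀ := by rw [← mul_assoc, hMκ]
    linarith
  have lt1 : L {y} u v₁ v₁ ≤ L {y} u t t := hL.mono _ _ _ _ _ _ _ (Finset.Subset.refl _) v12 v12
  have lt2 : L {y} u t t ≤ L {y} u v₂ v₂ :=
    hL.mono _ _ _ _ _ _ _ (Finset.Subset.refl _) (by linarith) (by linarith)
  have lt3 : L {y, u} v v₁ v₁ ≤ L {y, u} v t t :=
    hL.mono _ _ _ _ _ _ _ (Finset.Subset.refl _) v12 v12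
  rw [← h1 v₁ hv₁ (by linarith) (by linarith)] at lt1
  rw [← h1 v₂ hv₂ (by linarith) (by linarith)] at lt2
  have lt3 := (h2 v₁ hv₁ (by linarith) (by linarith)).trans lt3
  have m1 := lowA v₁ hv₁ (by linarith) (by linarith)
  have m2 := lowB v₁ hv₁ (by linarith) (by linarith)
  have hσt : 0 < σ * t₀ := by positivity
  have hσt1 : σ * t₀ ≤ t₀ := by nlinarith
  have eM : (M + 2) * t₀ = (M + 1) * t₀ + t₀ := by ring
  have hMt : 0 < M * t₀ := by positivity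
  refine ⟨by linarith, hcu, hcv, by linarith, by linarith, by linarith, a₀, a₀ + σ / 16 * t₀,
    by linarith, by linarith, by linarith, ?_⟩
  rw [← h1 a₀ ha₀ (by linarith) (by linarith)]
  have h6 := (abs_le.1 (H1 t₀ ht₀ t1 g hgG a₀ ha₀ (by linarith) (by linarith) a02)).1
  have h7 : σ * (a₀ - g) ≤ (Sl i - 1) * (a₀ - g) := mul_le_mul_of_nonneg_right hσ2 (by linarith)
  have h8 : (Sl i - 1) * (a₀ - g) = Sl i * (a₀ - g) - (a₀ - g) := by ring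
  have h9 : σ * (1 / 2 * t₀) ≤ σ * (a₀ - g) := mul_le_mul_of_nonneg_left (by linarith) hσ0.le
  linarith

/-- **Affine labels of the place `1`** from its diagonal numbers, in a subclass. -/
theorem afG_one {S : PCl m} (hS : S.Ne) {C₀ : ℝ} (hC₀ : 0 ≤ C₀) (htm : TmC S C₀)
    {L : Finset (Fin m) → Fin m → ℝ → ℝ → ℝ} (hL : LamW S L) {c : ℕ → Fin m} (h01 : c 0 ≠ c 1)
    (hact : ActF S (c 0)) :
    ∃ S' : PCl m, S'.Ne ∧
      (∀ (τ : ℝ) (J : ℕ) (F : Fam m J) (A : F.Ω → Prop), S'.St τ J F A → S.St τ J F A) ∧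
      ∀ {r₀ r : ℕ} {sn : ℝ → ℕ → ℝ} {G : Set ℝ} {g : ℝ} {Sl : ℕ → ℝ},
        SlpG sn r₀ r G g Sl → g ∈ G → r₀ ≤ 1 → 2 ≤ r → ∀ {ρ₀ : ℝ}, 0 < ρ₀ →
        (∀ w ∈ G, g - ρ₀ ≤ w → w ≤ g + ρ₀ → sn w 1 = L {c 0} (c 1) w w) →
        (∀ w ∈ G, g - ρ₀ ≤ w → w ≤ g + ρ₀ → sn w 2 ≤ L {c 0, c 1} (c 2) w w) →
        0 < g → g < sn g 1 → g < sn g 2 → sn g 1 < 1 → AfG S' c sn G g 1 := by
  classical
  have e1 : (range 1).image c = {c 0} := by simp
  obtain ⟨T, hTs, hTc, hTd⟩ := (TopologicalSpace.IsSeparable.of_separableSpace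
    {t : ℝ | Gdw L (c 0) (c 1) (c 2) t}).exists_countable_dense_subset
  obtain ⟨S', s1, s2, s3⟩ := aff_all hS hC₀ htm hL h01 hact (v := c 2) hTc fun t ht => hTs ht
  refine ⟨S', s1, s2, ?_⟩
  intro r₀ r sn G g Sl hSl hgG hr₀ hr ρ₀ hρ₀ hsn hsn2 hg0 hu hv hu1
  obtain ⟨ρ, hρ, hρ1, H⟩ := gdw_nearW (r₀ := r₀) (r := r) (i := 1) (y := c 0) (u := c 1)
    (v := c 2) hL hSl hgG hr₀ hr hρ₀ hsn hsn2 hg0 hu hv hu1
  have hden : ∀ a b : ℝ, g - ρ / 2 ≤ a → a < b → b ≤ g + ρ / 2 → ∃ t ∈ T, a < t ∧ t < b := by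
    intro a b a1 ab b1
    have hcnt : ({W : ℝ | ¬ ContinuousAt (fun W => L {c 0} (c 1) W W) W} ∪
        {W : ℝ | ¬ ContinuousAt (fun W => L {c 0, c 1} (c 2) W W) W}).Countable :=
      (cnt_L hL {c 0} (c 1)).2.union (cnt_L hL {c 0, c 1} (c 2)).2
    obtain ⟨t, ht, hti⟩ := (hcnt.dense_compl ℝ).exists_mem_open isOpen_Ioo
      (Set.nonempty_Ioo.mpr ab)
    simp only [Set.mem_compl_iff, Set.mem_union, Set.mem_ofPred_eq, not_or, not_not] at ht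
    have hgd := H t (by linarith [hti.1]) (by linarith [hti.2]) ht.1 ht.2
    obtain ⟨t', ht', htT⟩ := mem_closure_iff.1 (hTd hgd) (Set.Ioo a b) isOpen_Ioo hti
    exact ⟨t', htT, ht'.1, ht'.2⟩
  refine afG_of (r₀ := r₀) (r := r) hSl hr₀ (by omega)
    (L := fun w => L ((range 1).image c) (c 1) w w)
    (fun a b hab => hL.mono _ _ _ _ _ _ _ (Finset.Subset.refl _) hab hab)
    (ρ₀ := ρ / 2) (by positivity)
    (fun w hw w1 w2 => by
      rw [e1]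
      exact hsn w hw (by linarith) (by linarith)) hden fun t ht => ?_
  show AffL S' ((range 1).image c) (c 1) t (L ((range 1).image c) (c 1) t t)
  rw [e1]
  exact (s3 t ht).1

/-- Affine labels over more coordinates. -/
theorem afG_mono {S : PCl m} {c c' : ℕ → Fin m} {sn sn' : ℝ → ℕ → ℝ} {G : Set ℝ} {g : ℝ}
    {i i' : ℕ} (h : AfG S c sn G g i) (hI : (range i).image c ⊆ (range i').image c')
    (hc : c' i' = c i) (hsn : ∀ w ∈ G, sn' w i' = sn w i) : AfG S c' sn' G g i' := by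
  intro κ hκ
  obtain ⟨ρ, hρ, H⟩ := h κ hκ
  refine ⟨ρ, hρ, fun R hR hRρ w hw w1 w2 => ?_⟩
  obtain ⟨b, p, h1, h2, h3⟩ := H R hR hRρ w hw w1 w2
  refine ⟨b, p, h1, by rw [hsn w hw]; exact h2, fun e he => Bas.mono 0 (h3 e he) ?_⟩
  rintro J - F A ⟨V, z, z', Gl, hl⟩
  rw [hc]
  exact ⟨V, z, z', Gl, hl.mono hI le_rfl le_rfl⟩

end Pool.SWP
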