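import Pool.Agent.H57.AVG.Cgp
import Pool.Agent.H57.AVN.Asn
import Pool.Agent.H31.AVN.Csq

/-!
# The closed gradient of the second place below the target in the boxes at a point

`Bxs`: the conclusion of `asm2_fin` at a point. `asm2V_ex`: it holds at almost every window, with
constants of the degree only. `cgsQ_pt`: the property `CgsE` of the window.
-/

set_option autoImplicit false

namespace Pool.SWP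

open Finset Real MvPolynomial MeasureTheory Filter Topology
open Pool.Agent.H49.Ent Pool.Agent.H32.Dense Pool.STK Pool.KA Pool.KSAT Pool.K2S Pool.PB Pool.S6C
open Pool.GEN Pool.CHT Pool.CHX Pool.ISO Pool.RCD Pool.LA91 Pool.AVG96 Pool.AVG50 Pool.CDX
open Pool.PKG Pool.OWN68 Pool.OWN83 Pool.D2F2 Pool.AVG57

/-- **The closed gradient in the direction of the place `v` in the boxes** at `g`: the conclusion of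
`asm2_fin`. `a`: the constants of the box B, `a'` of the box A. -/
def Bxs {m : ℕ} (v K : ℕ) (ε : ℝ) (a a' : Cst) (S : PCl m) (c : ℕ → Fin m) (sn : ℝ → ℕ → ℝ)
    (G : Set ℝ) (g : ℝ) (Sl : ℕ → ℝ) (C₁ : ℝ) : Prop :=
  ∀ ξ₁ ν₁ C' : ℝ, 0 < ξ₁ → 0 < ν₁ → 0 < C' → ∃ Q₁ : ℝ, 0 < Q₁ ∧
  ∀ ξ₀ ν₀ C Nn : ℝ, 0 < ξ₀ → 0 < ν₀ → 0 < C → 0 < Nn →
    ∃ Cm κ φ ρ : ℝ, 0 < Cm ∧ 0 < κ ∧ 0 < φ ∧ 0 < ρ ∧
    ∀ R : ℝ, 0 < R → R < ρ → LbR S c 1 K sn G g (Cm * R) (Cm * R) (κ * R) (v + 2) →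
      ∀ w ∈ G, ∀ R' j' x' j x : ℝ, R' ≤ R →
      R ≤ Nn * R' → g - R' ≤ w → j' ≤ g + R' → x' ≤ g + R' → j ≤ g + R → x ≤ g + R →
      ∀ (δW q' ξ' μ' ν' q ξ μ ν φ' : ℝ) (p s : ℕ → ℝ),
      Bx2 sn 1 (v + 1) Sl w j' x' δW q' ξ' μ' ν' φ' (C' * R') p s →
      Bx2 sn 1 (v + 1) Sl w j x δW q ξ μ ν φ' (C * R) p s → φ' ≤ φ * R →
      ξ₁ * R' ≤ ξ' → ν₁ * R' ≤ ν' → μ' ≤ a.θ * ξ' → ν' ≤ a.θ * ξ' → a.θ * ξ' + ν' ≤ q' →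
      ξ₀ * R ≤ ξ → ν₀ * R ≤ ν → μ ≤ a.θ * ξ → ν ≤ a.θ * ξ → a.θ * ξ + ν ≤ q →
      (∀ l, 1 ≤ l → l ≤ v + 1 → Sl l * (x - w) + C₁ * (ξ + μ + ν) ≤ q) →
      Q₁ * R' ≤ q → q' + ξ' + μ' ≤ q → q' + ξ' + ν ≤ q → ξ < a'.κ * ξ' → μ ≤ μ' →
      CGs S c v K w δW j' x' j x p s q' ξ' q ξ μ a.κ a.ι a.k ε

/-- The conclusion of `asm2_fin` for the constants `a`, `a'`. -/
def Asm2V (v K : ℕ) (hd ε : ℝ) (a a' : Cst) : Prop :=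
  ∀ {m : ℕ} {S : PCl m} {c : ℕ → Fin m} {s₀ A B Λ : ℝ} {sn : ℝ → ℕ → ℝ} {G : Set ℝ}
    (_ : AsmC S c 1 (v + 1) s₀ A B Λ sn G) (_ : 1 ≤ v),
  ∀ᵐ g : ℝ, A < g → g < B → ∀ Sl : ℕ → ℝ, SlpG sn 1 (v + 2) G g Sl → 1 < Sl (v + 2) →
    (∀ l, 1 ≤ l → l ≤ v + 1 → Sl l < 2 ∨ AfG S c sn G g l) →
    AtTg S c (v + 2) sn G g → RawG S c sn G g hd (v + 2) →
    VfG S c 1 (v + 1) A B Λ sn G g Sl →
    ∀ C₁ : ℝ, VfPG S c 1 v (2 * K + 1) C₁ A B Λ sn G g Sl → Bxs v K ε a a' S c sn G g Sl C₁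

/-- **The constants.** -/
theorem asm2V_ex (v K : ℕ) {hd ε : ℝ} (hh : 0 < hd) (hh1 : hd ≤ 1) (hε : 0 < ε) :
    ∃ a a' : Cst, a.Ok ∧ a'.Ok ∧ a'.θ = a.θ ∧ Asm2V v K hd ε a a' := by
  obtain ⟨κ₁, κ₂, ι, θ, k₁, a1, a2, a3, a4, a5, a6, a7, H⟩ := asm2_fin v K hh hh1 hε
  exact ⟨⟨κ₂, ι, θ, k₁⟩, ⟨κ₁, 1, θ, 0⟩, ⟨a3, a4, a5, a6, a7⟩, ⟨a1, a2, one_pos, a6, a7⟩, rfl,
    fun X hv => H X hv⟩

/-- **The property of the window** from the boxes at the window. -/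
theorem cgsQ_pt {n v K N' : ℕ} {Φ : (ℕ → ℝ) → Prop} {C₁ : (ℕ → ℝ) → ℝ} {h εg : ℝ}
    {cs cs' : ℕ → Cst} {S : PCl n} {P : List (Fin n) × Fin n → ℝ → ℝ → ℝ} {θ : ℝ}
    {c : ℕ → Fin n} {Pt : ℝ → ℝ → ℝ} {r : ℝ → ℝ} {L T : ℕ → ℝ → ℝ → ℝ} {κ : ℕ → Kg}
    {G : Set ℝ} {g : ℝ} {Sl₁ : ℕ → ℝ}
    (e1 : ∀ l, 1 ≤ l → l ≤ v + 2 → HasDerivAt (fun w => L l w w) (Sl₁ l) g)
    (hC : ∀ Sl : ℕ → ℝ, (∀ l, 1 ≤ l → l ≤ v + 2 → Sl₁ l = Sl l) → C₁ Sl₁ = C₁ Sl)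
    (hθ : (cs' K).θ = (cs K).θ)
    (HH : Bxs v K εg (cs K) (cs' K) S c (fun w l => L l w w) G g Sl₁ (C₁ Sl₁)) :
    ∃ k₁ : ℕ, CgsE v Φ C₁ h εg cs cs' (K, N') k₁ S P θ c Pt r L T κ G g := by
  have hN' : (0 : ℝ) < N' + 1 := by positivity
  obtain ⟨Q₁, hQ₁, HH⟩ := HH (1 / (N' + 1)) (1 / (N' + 1)) (N' + 1) (by positivity)
    (by positivity) hN'
  obtain ⟨k₁, hk₁⟩ := exists_nat_gt Q₁
  refine ⟨k₁, fun N => ?_⟩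
  have hN : (0 : ℝ) < N + 1 := by positivity
  obtain ⟨Cm, κ', φ₀, ρ, f1, f2, f3, f4, HH⟩ := HH (1 / (N + 1)) (1 / (N + 1)) (N + 1) (N + 1)
    (by positivity) (by positivity) hN hN
  obtain ⟨k₂, hk₂⟩ := exists_pow_lt_of_lt_one (lt_min (lt_min f2 f3) f4)
    (show (1 / 2 : ℝ) < 1 by norm_num)
  obtain ⟨k₃, hk₃⟩ := exists_nat_gt Cm
  refine ⟨max k₂ k₃, fun Sl g1 g2 g3 R hR hRk _ hLb w hw R' j' x' j x hRR hRN w1 j1' x1' j1 x1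
    δW q' ξ' μ' ν' q ξ μ ν φ' pl sl Nm' Nm hφ' hξ' hν' hμ' hνθ' hθq' hξ hν hμ hνθ hθq hkq hqq hqν
    hξξ hμμ hCq => ?_⟩
  have hpw : (1 / 2 : ℝ) ^ (max k₂ k₃) ≤ (1 / 2) ^ k₂ :=
    pow_le_pow_of_le_one (by norm_num) (by norm_num) (le_max_left _ _)
  have m1 : (1 / 2 : ℝ) ^ (max k₂ k₃) < κ' := by
    have := min_le_left (min κ' φ₀) ρ
    have := min_le_left κ' φ₀
    linarith
  have m2 : (1 / 2 : ℝ) ^ (max k₂ k₃) < φ₀ := by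
    have := min_le_left (min κ' φ₀) ρ
    have := min_le_right κ' φ₀
    linarith
  have m3 : (1 / 2 : ℝ) ^ (max k₂ k₃) < ρ := by
    have := min_le_right (min κ' φ₀) ρ
    linarith
  have m4 : Cm ≤ 2 ^ (max k₂ k₃) := by
    have k1 : (k₃ : ℝ) ≤ 2 ^ k₃ := by
      have := Nat.lt_two_pow_self (n := k₃)
      exact_mod_cast this.le
    have k2 : (2 : ℝ) ^ k₃ ≤ 2 ^ (max k₂ k₃) := pow_le_pow_right₀ (by norm_num)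
      (le_max_right _ _)
    linarith
  have m5 : Q₁ ≤ 2 ^ k₁ := by
    have k1 : (k₁ : ℝ) ≤ 2 ^ k₁ := by
      have := Nat.lt_two_pow_self (n := k₁)
      exact_mod_cast this.le
    linarith
  have hSlE : ∀ l, 1 ≤ l → l ≤ v + 2 → Sl₁ l = Sl l := fun l l0 l1 =>
    (e1 l l0 l1).unique (g1 l l0 l1)
  have hR'0 : 0 ≤ R' := by
    by_contra hc
    have h1 := mul_neg_of_pos_of_neg hN (not_le.1 hc)
    linarith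
  rw [abs_le] at w1 j1' x1' j1 x1
  rw [hθ] at hμ' hνθ' hθq'
  refine HH R hR (hRk.trans m3) ?_ w hw R' j' x' j x hRR hRN (by linarith [w1.1])
    (by linarith [j1'.2]) (by linarith [x1'.2]) (by linarith [j1.2])
    (by linarith [x1.2]) δW q' ξ' μ' ν' q ξ μ ν φ' pl sl (bx2_congr Nm' fun l a b => hSlE l a b)
    (bx2_congr Nm fun l a b => hSlE l a b) ?_ ?_ ?_ hμ' hνθ' hθq' ?_ ?_ hμ hνθ hθq ?_ ?_ hqq.le hqν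
    hξξ hμμ
  · exact hLb.mono (mul_le_mul_of_nonneg_right m4 hR.le) (mul_le_mul_of_nonneg_right m4 hR.le)
      (mul_le_mul_of_nonneg_right m1.le hR.le)
  · exact hφ'.trans (mul_le_mul_of_nonneg_right m2.le hR.le)
  · rw [one_div, inv_mul_eq_div]
    exact hξ'
  · rw [one_div, inv_mul_eq_div]
    exact hν'
  · rw [one_div, inv_mul_eq_div]
    exact hξ
  · rw [one_div, inv_mul_eq_div]
    exact hν
  · intro l l0 l1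
    rw [hC Sl hSlE, hSlE l l0 (by omega)]
    exact hCq l l0 l1
  · exact (mul_le_mul_of_nonneg_right m5 hR'0).trans hkq

end Pool.SWP
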