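import Pool.Agent.H57.SWB.Vfs
import Pool.Agent.H57.SWB.Bxs
import Pool.Agent.H31.AVN.Vor

/-!
# The closed gradient for the swapped list at almost every window

`aeSw_cgs`: the closed gradient of the second place below the target for the list with the places `1`,
`2` swapped, four coordinates, from the fullness of the moved place `2` and of the pair `1`, `2` of the
swapped list.
-/

set_option autoImplicit false

namespace Pool.SWP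

open Finset Real MvPolynomial MeasureTheory Filter Topology
open Pool.Agent.H49.Ent Pool.Agent.H32.Dense Pool.STK Pool.KA Pool.KSAT Pool.K2S Pool.PB Pool.S6C
open Pool.GEN Pool.CHT Pool.CHX Pool.ISO Pool.RCD Pool.LA91 Pool.AVG96 Pool.AVG50 Pool.CDX
open Pool.PKG Pool.OWN68 Pool.OWN83 Pool.D2F2 Pool.AVG57
open Pool.TOP (TopS)

/-- **The closed gradient for the swapped list at almost every window**, in a subclass, if the moved
place and the pair are full. The constants depend on `h`, `εg` and the degree only. -/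
theorem aeSw_cgs {Φ : (ℕ → ℝ) → Prop} {C₁ : (ℕ → ℝ) → ℝ}
    (hC : ∀ Sl Sl' : ℕ → ℝ, (∀ l, 1 ≤ l → l ≤ 3 → Sl l = Sl' l) → C₁ Sl = C₁ Sl') {h εg : ℝ}
    (hh : 0 < h) (hh1 : h ≤ 1) (hεg : 0 < εg) :
    ∃ cs cs' : ℕ → Cst, (∀ K, (cs K).Ok) ∧ (∀ K, (cs' K).Ok) ∧
      (AeSw 4 1 (VfQ 2 Φ : PropG 4 Unit) → AeSw 4 1 (VfPQ 1 Φ C₁ : PropG 4 ℕ) →
        AeSw 4 1 (CgsE 1 Φ C₁ h εg cs cs' : PropG 4 (ℕ × ℕ))) := by
  choose cs cs' hok hok' hθ hcs using fun K => asm2V_ex 1 K (show 0 < h / 2 by linarith)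
    (show h / 2 ≤ 1 by linarith) hεg
  refine ⟨cs, cs', hok, hok', ?_⟩
  intro hvf hvp hn S P r P' Λ PB PQ H hTop hF o G hG hGs hdg hsw
  obtain ⟨S₁, a1, a2, a3⟩ := tgt_attU H.toPk hTop hF
  have H₁ := H.sub a1 a2
  obtain ⟨S₂, b1, b2, b3⟩ := asmC_sw H₁.toPkT hTop hF hG hGs le_rfl (by omega)
    (fun w hw => (hsw w hw).sub a2) (v := 2) (by norm_num) (by omega)
  have H₂ := H₁.sub b1 b2
  have t2 : ∀ (τ : ℝ) (J : ℕ) (F : Fam 4 J) (A : F.Ω → Prop), S₂.St τ J F A → S.St τ J F A :=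
    fun τ J F A h => a2 τ J F A (b2 τ J F A h)
  obtain ⟨S₃, c1, c2, c3⟩ := aeSw_af (by norm_num) hn S₂ P r P' Λ PB PQ H₂ hTop hF o G hG hGs hdg
    fun w hw => (hsw w hw).sub t2
  have H₃ := H₂.sub c1 c2
  have t3 : ∀ (τ : ℝ) (J : ℕ) (F : Fam 4 J) (A : F.Ω → Prop), S₃.St τ J F A → S.St τ J F A :=
    fun τ J F A h => t2 τ J F A (c2 τ J F A h)
  obtain ⟨S₄, d1, d2, d3⟩ := hvf hn S₃ P r P' Λ PB PQ H₃ hTop hF o G hG hGs hdg
    fun w hw => (hsw w hw).sub t3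
  have H₄ := H₃.sub d1 d2
  have t4 : ∀ (τ : ℝ) (J : ℕ) (F : Fam 4 J) (A : F.Ω → Prop), S₄.St τ J F A → S.St τ J F A :=
    fun τ J F A h => t3 τ J F A (d2 τ J F A h)
  obtain ⟨S₅, e1, e2, e3⟩ := hvp hn S₄ P r P' Λ PB PQ H₄ hTop hF o G hG hGs hdg
    fun w hw => (hsw w hw).sub t4
  have H₅ := H₄.sub e1 e2
  have s3 : ∀ (τ : ℝ) (J : ℕ) (F : Fam 4 J) (A : F.Ω → Prop), S₅.St τ J F A → S₃.St τ J F A :=
    fun τ J F A h => d2 τ J F A (e2 τ J F A h)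
  have s2 : ∀ (τ : ℝ) (J : ℕ) (F : Fam 4 J) (A : F.Ω → Prop), S₅.St τ J F A → S₂.St τ J F A :=
    fun τ J F A h => c2 τ J F A (s3 τ J F A h)
  have s1 : ∀ (τ : ℝ) (J : ℕ) (F : Fam 4 J) (A : F.Ω → Prop), S₅.St τ J F A → S₁.St τ J F A :=
    fun τ J F A h => b2 τ J F A (s2 τ J F A h)
  refine ⟨S₅, e1, fun τ J F A h => a2 τ J F A (s1 τ J F A h), ?_⟩
  -- the swapped list
  obtain ⟨c, hc⟩ : ∃ c : ℕ → Fin 4, c = fun l => cc hn o.1.1 (sw 1 l) := ⟨_, rfl⟩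
  obtain ⟨L, hL⟩ : ∃ L : ℕ → ℝ → ℝ → ℝ, L = fun l => LvL hn P P' o (sw 1 l) := ⟨_, rfl⟩
  obtain ⟨sn, hsn⟩ : ∃ sn : ℝ → ℕ → ℝ, sn = fun w l => L l w w := ⟨_, rfl⟩
  have q3 : sw 1 3 = 3 := sw_gt (by norm_num)
  have cc3 : c 3 = cc hn o.1.1 3 := by rw [hc]; show cc hn o.1.1 (sw 1 3) = _; rw [q3]
  have L3 : L 3 = P := by
    rw [hL]
    show LvL hn P P' o (sw 1 3) = P
    rw [q3]
    exact lvL_last o
  have im3 : (range 3).image c = (range 3).image (cc hn o.1.1) := by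
    rw [hc]
    exact img_sw (cc hn o.1.1) (Or.inr (by norm_num))
  have hX : ∀ A B Λ' : ℝ, 0 ≤ A → 0 < Λ' → B + Λ' ≤ 1 → B ≤ 1 → Λ' ≤ 1 →
      AsmC S₅ c 1 2 0 A B Λ' sn G := by
    intro A B Λ' k1 k2 k3 k4 k5
    rw [hc, hsn, hL]
    exact (b3 A B Λ' k1 k2 k3 k4 k5).sub e1 s2
  have hall : ∀ᵐ g : ℝ, ∀ (K : ℕ) (x : {x : ℚ × ℚ // 0 < x.2 ∧ x.1 + x.2 ≤ 1 ∧ 0 ≤ x.1}),
      (0 : ℝ) < g → g < x.1.1 → ∀ Sl : ℕ → ℝ, SlpG sn 1 3 G g Sl → 1 < Sl 3 →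
      (∀ l, 1 ≤ l → l ≤ 2 → Sl l < 2 ∨ AfG S₅ c sn G g l) →
      AtTg S₅ c 3 sn G g → RawG S₅ c sn G g (h / 2) 3 →
      VfG S₅ c 1 2 0 x.1.1 x.1.2 sn G g Sl →
      ∀ C₁ : ℝ, VfPG S₅ c 1 1 (2 * K + 1) C₁ 0 x.1.1 x.1.2 sn G g Sl →
      Bxs 1 K εg (cs K) (cs' K) S₅ c sn G g Sl C₁ := by
    rw [ae_all_iff]
    intro K
    rw [ae_all_iff]
    rintro ⟨⟨B, Λ'⟩, k1, k2, k3⟩
    have k1' : (0 : ℝ) < (Λ' : ℝ) := by exact_mod_cast k1
    have k2' : (B : ℝ) + Λ' ≤ 1 := by exact_mod_cast k2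
    have k3' : (0 : ℝ) ≤ (B : ℝ) := by exact_mod_cast k3
    exact hcs K (hX 0 B Λ' le_rfl k1' k2' (by linarith) (by linarith)) le_rfl
  have hrl : ∀ᵐ Q : ℝ, DifferentiableAt ℝ r Q := H.toPk.rate.lip.ae_differentiableAt_real
  have hrat : ∀ᵐ g : ℝ, DifferentiableAt ℝ (dgP P) g → 0 < deriv (dgP P) g →
      dgP P g ∉ {Q | ¬ DifferentiableAt ℝ r Q} :=
    Pool.STR.ae_notMem_of_null (dgP_mono (H.toPk.tgs.law ())) (ae_iff.1 hrl)
  rw [← hc, ← hL] at c3 d3 e3 ⊢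
  filter_upwards [hall, hrat, gap_ae hG, c3, d3, e3] with g h1 h2 h3 h4 h5 h6 hg κ hκ p
  obtain ⟨K, N⟩ := p
  have hg0 : 0 < g := (hGs hg).1.1.1
  have hg1 : g < 1 := (hGs hg).1.1.2.1
  -- the slopes
  by_cases hex : ∃ Sl : ℕ → ℝ, (∀ l, 1 ≤ l → l ≤ 3 →
      HasDerivAt (fun w => L l w w) (Sl l) g) ∧ Φ Sl ∧ ∀ l, 1 ≤ l → l ≤ 3 → 1 < Sl l
  swap
  · exact ⟨0, fun N => ⟨0, fun Sl f1 f2 f3 => absurd ⟨Sl, f1, f2, f3⟩ hex⟩⟩
  obtain ⟨Sl₁, f1, f2, f3⟩ := hex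
  have hslp : SlpG sn 1 3 G g Sl₁ := by
    rw [hsn]
    exact slpG_of (fun l l0 l1 => by linarith [f3 l l0 l1]) (fun l l0 l1 => f3 l l0 (by omega))
      (fun l l0 l1 => (f1 l l0 l1).hasDerivWithinAt) (h3 hg)
  -- the rate is differentiable
  have hdP : HasDerivAt (fun w => P w w) (Sl₁ 3) g := by
    have := f1 3 (by norm_num) le_rfl
    rwa [L3] at this
  have hev : dgP P =ᶠ[𝓝 g] fun w => P w w := by
    filter_upwards [Ioo_mem_nhds hg0 hg1] with w hw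
    exact dgP_eq P hw.1.le hw.2.le
  have hdP' := hdP.congr_of_eventuallyEq hev
  have hrd : DifferentiableAt ℝ r (P g g) := by
    have k1 := h2 hdP'.differentiableAt (by
      rw [hdP'.deriv]
      linarith [f3 3 (by norm_num) le_rfl])
    rw [dgP_eq P hg0.le hg1.le] at k1
    by_contra k2
    exact k1 k2
  obtain ⟨ρ', hρ'⟩ : ∃ ρ' : ℝ, HasDerivAt r ρ' (P g g) := ⟨_, hrd.hasDerivAt⟩
  have hLP : L 3 g g = P g g := by rw [L3]
  have hsP : sn g 3 = P g g := by rw [hsn]; exact hLP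
  obtain ⟨k₁, hk₁⟩ := row_deriv hh hρ'
  by_cases hrow : ρ' ≤ 1 - h / 2
  swap
  · refine ⟨0, fun N => ⟨k₁, fun Sl _ _ _ R hR hRk hrw => ?_⟩⟩
    rw [hLP] at hrw
    exact absurd (hk₁ k₁ le_rfl R hR hRk hrw) hrow
  -- the inputs at `g`
  have hTg : AtTg S₅ c 3 sn G g := by
    refine ⟨tht o.2 / 2, by linarith [tht_pos o.2], 1, one_pos, fun w hw _ _ => ?_⟩
    obtain ⟨rk, E, t1, t2, t3, t4, t5⟩ := a3 o w (hGs hw)
    have hs3 : sn w 3 = LvL hn P P' o (4 - 1) w w := by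
      rw [hsn]
      show L 3 w w = _
      rw [L3, lvL_last]
    refine ⟨rk, E, t1, t2, t3, ?_, ?_⟩
    · rw [hs3]
      exact t4
    · rw [hs3, im3, cc3]
      exact t5.sub s1
  have hct3 := cc_top hn o.1.1
  norm_num at hct3
  have hraw : RawG S₅ c sn G g (h / 2) 3 := by
    refine rawG_rate H₅.toPk.tmc (rt := r) ?_ ?_ hslp hg (by norm_num) le_rfl ?_ ?_ (ρ' := ρ') ?_
      hrow
    · rw [cc3, hct3]
      exact H₅.toPk.rate
    · rw [im3, cc3, hct3]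
      exact V0F.img_lst hn o.1.1
    · rw [hsP]
      exact hg0.trans_le (H.toPk.tgs.low () g g hg0.le le_rfl hg1.le)
    · rw [hsP]
      exact tgt_lt H.toPk hTop hF (hGs hg)
    · rw [hsP]
      exact hρ'
  have haf : ∀ l, 1 ≤ l → l ≤ 2 → Sl₁ l < 2 ∨ AfG S₅ c sn G g l := by
    intro l l0 l1
    obtain ⟨_, k2⟩ := h4 hg κ hκ ()
    have k3 := k2 (by
      show 1 < deriv (fun a => L 1 a a) g
      rw [(f1 1 le_rfl (by norm_num)).deriv]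
      exact f3 1 le_rfl (by norm_num)) (by
      show 1 < deriv (fun a => L 2 a a) g
      rw [(f1 2 (by norm_num) (by norm_num)).deriv]
      exact f3 2 (by norm_num) (by norm_num))
    right
    rw [hsn]
    obtain rfl | rfl : l = 1 ∨ l = 2 := by omega
    · exact k3.1.sub s3
    · exact k3.2.sub s3
  -- the interval
  obtain ⟨B, B1, B2⟩ := exists_rat_btwn hg1
  have hB0 : (0 : ℝ) < B := hg0.trans B1
  have hB0' : (0 : ℚ) < B := by exact_mod_cast hB0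
  have hB1' : B < (1 : ℚ) := by exact_mod_cast B2
  obtain ⟨_, hvf'⟩ := h5 hg κ hκ ()
  have hvfg := hvf' Sl₁ f1 f2 f3 0 B (1 - B) le_rfl (by push_cast; exact hg0) B1 (by linarith)
    (by linarith)
  obtain ⟨_, hvp'⟩ := h6 hg κ hκ (2 * K + 1)
  have hvpg := hvp' Sl₁ f1 f2 f3 0 B (1 - B) le_rfl (by push_cast; exact hg0) B1 (by linarith)
    (by linarith)
  have hbx := h1 K ⟨(B, 1 - B), by linarith, by linarith, hB0'.le⟩ hg0 B1 Sl₁ hslp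
    (f3 3 (by norm_num) le_rfl) haf hTg hraw
    (by rw [hsn]; push_cast at hvfg ⊢; exact vfG_sub hvfg e2) (C₁ Sl₁)
    (by rw [hsn]; push_cast at hvpg ⊢; exact hvpg)
  rw [hsn] at hbx
  exact cgsQ_pt f1 (fun Sl hS => hC _ _ hS) (hθ K) hbx

end Pool.SWP
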