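import Pool.Agent.H57.SWB.Lsw
import Pool.Agent.H57.SWB.Cgw
import Pool.Agent.H66.TSW.Cgq
import Pool.Agent.H66.TSW.Cgo

/-!
# The closed gradient with a deep spectator at almost every window

`bx2_sw`: the numbers of a box for the swapped list. `aeRs_cgt`: 66's property `CgtQ` holds at almost
every window where the swapped list exists, from the closed gradient of the swapped list.
-/

set_option autoImplicit false

namespace Pool.SWP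

open Finset Real MvPolynomial MeasureTheory Filter Topology
open Pool.Agent.H49.Ent Pool.Agent.H32.Dense Pool.STK Pool.KA Pool.KSAT Pool.K2S Pool.PB Pool.S6C
open Pool.GEN Pool.CHT Pool.CHX Pool.ISO Pool.RCD Pool.LA91 Pool.AVG96 Pool.AVG50 Pool.CDX
open Pool.PKG Pool.OWN68 Pool.OWN83 Pool.D2F2 Pool.AVG57 Pool.TSW50 Pool.TSW66
open Pool.TOP (TopS)
open Pool.OWN72 (epo cc_epo Ctw Dsc gs_act ctw_ae dns_pt dsc_pos)

theorem sw_m3 {l : ℕ} (h0 : 1 ≤ l) (h1 : l ≤ 3) : 1 ≤ sw 1 l ∧ sw 1 l ≤ 3 := by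
  unfold sw
  split_ifs <;> omega

theorem sw_m2 {l : ℕ} (h0 : 1 ≤ l) (h1 : l ≤ 2) : 1 ≤ sw 1 l ∧ sw 1 l ≤ 2 := by
  unfold sw
  split_ifs <;> omega

/-- **The numbers of a box for the swapped list**, with smaller precisions. -/
theorem bx2_sw {sn : ℝ → ℕ → ℝ} {Sl : ℕ → ℝ} {w j x δW q ξ μ ν φ C : ℝ} {p s : ℕ → ℝ}
    (N : Bx2 sn 1 2 Sl w j x δW q ξ μ ν φ C p s) {φ' : ℝ} {p' : ℕ → ℝ} (hν : φ' ≤ ν / 8)
    (hμ : φ' < μ) (hp0 : p' 0 = p 0) (hp1 : ∀ l, 1 ≤ l → l ≤ 3 → 0 ≤ p' l)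
    (hp2 : ∀ l, 1 ≤ l → l ≤ 3 → sn w l - φ' ≤ p' l ∧ p' l ≤ sn w l) :
    Bx2 (fun w l => sn w (sw 1 l)) 1 2 (fun l => Sl (sw 1 l)) w j x δW q ξ μ ν φ' C
      (fun l => p' (sw 1 l)) (fun l => s (sw 1 l)) where
  q0 := N.q0
  ξ0 := N.ξ0
  μ0 := N.μ0
  ν0 := N.ν0
  δ0 := N.δ0
  δν := N.δν
  δξ := N.δξ
  φν := hν
  φμ := hμ
  wj := N.wj
  wx := N.wx
  jn := fun l l0 l1 => N.jn _ (sw_m3 l0 l1).1 (sw_m3 l0 l1).2
  xn := fun l l0 l1 => N.xn _ (sw_m2 l0 l1).1 (sw_m2 l0 l1).2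
  xq := by
    have h1 : sw 1 (2 + 1) = 2 + 1 := sw_gt (by norm_num)
    rw [h1]
    exact N.xq
  qC := N.qC
  base := fun l hl => by
    obtain rfl : l = 0 := by omega
    have h0 : sw 1 0 = 0 := sw_lt one_pos
    rw [h0, hp0]
    exact N.base 0 one_pos
  sc := fun l l0 l1 => N.sc _ (sw_m3 l0 l1).1 (sw_m3 l0 l1).2
  p0 := fun l l0 l1 => hp1 _ (sw_m3 l0 l1).1 (sw_m3 l0 l1).2
  pc := fun l l0 l1 => hp2 _ (sw_m3 l0 l1).1 (sw_m3 l0 l1).2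

/-- Larger precisions of the labels. -/
theorem cGt_p {m : ℕ} {S : PCl m} {c : ℕ → Fin m} {K : ℕ} {w δW j' x' j x : ℝ} {p p' s : ℕ → ℝ}
    {q' ξ' q ξ μ σ κ₂ ι : ℝ} {k₁ : ℕ} {ε : ℝ}
    (h : CGt S c K w δW j' x' j x p' s q' ξ' q ξ μ σ κ₂ ι k₁ ε) (hp : ∀ l ≤ 3, p' l ≤ p l) :
    CGt S c K w δW j' x' j x p s q' ξ' q ξ μ σ κ₂ ι k₁ ε := by
  intro E
  refine Bas.mono 0 (h E) ?_
  rintro J - F B H ks' nn' ks nn gm G H' U hL
  exact H ks' nn' ks nn gm G H' U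
    { hL with
      lo := fun l hl => (Nat.floor_le_floor (mul_le_mul_of_nonneg_right (hp l (by omega))
        (Nat.cast_nonneg J))).trans (hL.lo l hl) }

/-- **66's property `CgtQ`** at almost every window where the swapped list exists. -/
theorem aeRs_cgt {Φ : (ℕ → ℝ) → Prop} {C₁ : (ℕ → ℝ) → ℝ} {h εg : ℝ}
    (hεg : 0 < εg) {cs cs' : ℕ → Cst}
    (hQ : AeSw 4 1 (CgsE 1 Φ C₁ h (εg / 2) cs cs' : PropG 4 (ℕ × ℕ))) :
    AeRs 4 1 (CgtQ Φ C₁ h εg cs cs' : PropG 4 (ℕ × ℕ)) := by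
  intro hn S P r P' Λ PB PQ H hTop hF o G hG hGs hdg hsw hct
  obtain ⟨S₁, a1, a2, a3⟩ := aeRs_chx (by norm_num) hn S P r P' Λ PB PQ H hTop hF o G hG hGs hdg
    hsw hct
  have H₁ := H.sub a1 a2
  obtain ⟨S₂, b1, b2, b3⟩ := hQ hn S₁ P r P' Λ PB PQ H₁ hTop hF o G hG hGs hdg
    fun w hw => (hsw w hw).sub a2
  have H₂ := H₁.sub b1 b2
  refine ⟨S₂, b1, fun τ J F A h => a2 τ J F A (b2 τ J F A h), ?_⟩
  -- the levels
  have hlow : ∀ w ∈ G, 0 < LvL hn P P' o 2 w w := by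
    intro w hw
    have h0 : w ≤ LvL hn P P' o 1 w w := by
      rw [gs_lvl H.toPk hTop hF (hGs hw) (by omega)]
      exact le_vs H.toPk.lam (epo hn o) (hGs hw).1.1.2.1.le _
    have h1 : LvL hn P P' o 1 w w ≤ LvL hn P P' o 2 w w := by
      rw [gs_lvl H.toPk hTop hF (hGs hw) (by omega), gs_lvl H.toPk hTop hF (hGs hw) (by omega)]
      have h1 : Vgr Λ (epo hn o) w := (hGs hw).1.1.2.2.1
      exact h1.mono H.toPk.lam (hGs hw).1.1.2.1.le (by omega)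
    linarith [(hGs hw).1.1.1]
  filter_upwards [a3, b3] with g k1 k2 hg κ hκ p
  obtain ⟨K, N'⟩ := p
  obtain ⟨_, hch⟩ := k1 hg κ hκ ()
  obtain ⟨k₁, hQg⟩ := k2 hg κ hκ (K, N')
  refine ⟨k₁, fun hK N => ?_⟩
  have hK1 : 1 ≤ K := hK
  by_cases hex : ∃ Sl : ℕ → ℝ, (∀ l, 1 ≤ l → l ≤ 3 →
      HasDerivAt (fun w => LvL hn P P' o l w w) (Sl l) g) ∧ ∀ l, 1 ≤ l → l ≤ 3 → 1 < Sl l
  swap
  · exact ⟨0, fun Sl e1 _ e3 => absurd ⟨Sl, e1, e3⟩ hex⟩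
  obtain ⟨Sl₁, f1, f2⟩ := hex
  have hcx : ChX S₁ (cc hn o.1.1) (fun w l => LvL hn P P' o l w w) G g 2 := hch (by
      show 1 < deriv (fun a => LvL hn P P' o 1 a a) g
      rw [(f1 1 le_rfl (by norm_num)).deriv]
      exact f2 1 le_rfl (by norm_num)) (by
      show 1 < deriv (fun a => LvL hn P P' o 2 a a) g
      rw [(f1 2 (by norm_num) (by norm_num)).deriv]
      exact f2 2 (by norm_num) (by norm_num))
  obtain ⟨ρ, hρ, hlb⟩ := lbR_sw (hcx.sub b2)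
  obtain ⟨ρ', hρ', hcx⟩ := hcx.sub b2
  obtain ⟨k₂, HQ⟩ := hQg N
  have hN : (0 : ℝ) < N + 1 := by positivity
  have hN' : (0 : ℝ) < N' + 1 := by positivity
  -- the scale
  obtain ⟨k₃, hk₃⟩ := exists_pow_lt_of_lt_one (show (0 : ℝ) < min (min (ρ / 2) ρ')
    (1 / (2 * (K + 4) * (N + 1) * (N + 1) * (N' + 1) * 8)) by positivity)
    (show (1 / 2 : ℝ) < 1 by norm_num)
  have hk4 : (1 / 2 : ℝ) ^ k₃ ≤ ρ / 2 := hk₃.le.trans ((min_le_left _ _).trans (min_le_left _ _))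
  have hk5 : (1 / 2 : ℝ) ^ k₃ ≤ ρ' := hk₃.le.trans ((min_le_left _ _).trans (min_le_right _ _))
  have hk6 : (1 / 2 : ℝ) ^ k₃ ≤ 1 / (2 * (K + 4) * (N + 1) * (N + 1) * (N' + 1) * 8) :=
    hk₃.le.trans (min_le_right _ _)
  refine ⟨k₂ + k₃, ?_⟩
  have hp3 : (0 : ℝ) < (1 / 2) ^ k₃ := by positivity
  have hp2 : (0 : ℝ) < (1 / 2) ^ k₂ := by positivity
  have hp21 : (1 / 2 : ℝ) ^ k₂ ≤ 1 := pow_le_one₀ (by norm_num) (by norm_num)
  have hp31 : (1 / 2 : ℝ) ^ k₃ ≤ 1 := pow_le_one₀ (by norm_num) (by norm_num)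
  have hadd : (1 / 2 : ℝ) ^ (k₂ + k₃) = (1 / 2) ^ k₂ * (1 / 2) ^ k₃ := pow_add _ _ _
  have hle2 : (1 / 2 : ℝ) ^ (k₂ + k₃) ≤ (1 / 2) ^ k₂ := by
    rw [hadd]
    exact mul_le_of_le_one_right hp2.le hp31
  have hle3 : (1 / 2 : ℝ) ^ (k₂ + k₃) ≤ (1 / 2) ^ k₃ := by
    rw [hadd]
    exact mul_le_of_le_one_left hp3.le hp21
  have hge2 : (2 : ℝ) ^ k₂ ≤ 2 ^ (k₂ + k₃) :=
    pow_le_pow_right₀ (by norm_num) (Nat.le_add_right _ _)
  intro Sl e1 e2 e3 R hR hRk hrow hLb w hw R' j' x' j x hRR hRN w1 j1' x1' j1 x1 δW q' ξ' μ' ν' q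
    ξ μ ν φ σ pl sl Nm' Nm hwp hφ hξ' hν' hμ' hνθ' hθq' hξ hν hμ hνθ hθq hkq hqq hqν hξξ hμμ hCq
    hσ _ hξσ hξσ'
  obtain ⟨sn, hsn⟩ : ∃ sn : ℝ → ℕ → ℝ, sn = fun w l => LvL hn P P' o l w w := ⟨_, rfl⟩
  rw [← hsn] at Nm Nm' hLb hcx hlb
  have hs2 : 0 < sn w 2 := by rw [hsn]; exact hlow w hw
  have hR'0 : 0 < R' := by
    by_contra hc
    have h1 : (N + 1 : ℝ) * R' ≤ 0 := mul_nonpos_of_nonneg_of_nonpos hN.le (not_lt.1 hc)
    linarith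
  have hμ0 := Nm.μ0
  have hμ'0 := Nm'.μ0
  have hσ0 : 0 < σ := (div_pos hR hN).trans_le hσ
  -- the tolerance
  obtain ⟨e, he⟩ : ∃ e : ℝ, e = (1 / 2) ^ (k₂ + k₃) * R := ⟨_, rfl⟩
  have he0 : 0 < e := by rw [he]; positivity
  have he3 : e ≤ (1 / 2) ^ k₃ * R := by rw [he]; exact mul_le_mul_of_nonneg_right hle3 hR.le
  have he2 : e ≤ (1 / 2) ^ k₂ * R := by rw [he]; exact mul_le_mul_of_nonneg_right hle2 hR.le
  have heD : 2 * (K + 4) * (N + 1) * (N + 1) * (N' + 1) * 8 * e ≤ R := by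
    have h1 : (0 : ℝ) < 2 * (K + 4) * (N + 1) * (N + 1) * (N' + 1) * 8 := by positivity
    have h2 := (le_div_iff₀ h1).1 hk6
    have h3 : 2 * (K + 4) * (N + 1) * (N + 1) * (N' + 1) * 8 * e ≤
        2 * (K + 4) * (N + 1) * (N + 1) * (N' + 1) * 8 * ((1 / 2) ^ k₃ * R) :=
      mul_le_mul_of_nonneg_left he3 h1.le
    have h4 : 2 * (K + 4) * (N + 1) * (N + 1) * (N' + 1) * 8 * ((1 / 2) ^ k₃ * R) =
        ((1 / 2) ^ k₃ * (2 * (K + 4) * (N + 1) * (N + 1) * (N' + 1) * 8)) * R := by ring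
    rw [h4] at h3
    have h5 := mul_le_mul_of_nonneg_right h2 hR.le
    linarith
  have n1 : (1 : ℝ) ≤ N + 1 := by linarith [Nat.cast_nonneg (α := ℝ) N]
  have n1' : (1 : ℝ) ≤ N' + 1 := by linarith [Nat.cast_nonneg (α := ℝ) N']
  have n1k : (1 : ℝ) ≤ 2 * (K + 4) := by linarith [Nat.cast_nonneg (α := ℝ) K]
  have hone : ∀ a b : ℝ, 0 ≤ a → 1 ≤ b → a ≤ a * b := fun a b ha hb =>
    le_mul_of_one_le_right ha hb
  have hm : ∀ a b : ℝ, 1 ≤ a → 1 ≤ b → 1 ≤ a * b := fun a b ha hb =>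
    one_le_mul_of_one_le_of_one_le ha hb
  have heK : 2 * (K + 4) * e ≤ R / (N + 1) := by
    rw [le_div_iff₀ hN]
    have h1 := hone (2 * (K + 4) * e * (N + 1)) ((N + 1) * (N' + 1) * 8) (by positivity)
      (hm _ _ (hm _ _ n1 n1') (by norm_num))
    have h2 : 2 * (K + 4) * e * (N + 1) * ((N + 1) * (N' + 1) * 8) =
      2 * (K + 4) * (N + 1) * (N + 1) * (N' + 1) * 8 * e := by ring
    linarith only [h1, h2, heD]
  have heν : e ≤ ν / 8 := by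
    have h1 := (div_le_iff₀ hN).1 hν
    have h2 := hone (8 * e * (N + 1)) (2 * (K + 4) * ((N + 1) * (N' + 1))) (by positivity)
      (hm _ _ n1k (hm _ _ n1 n1'))
    have h3 : 8 * e * (N + 1) * (2 * (K + 4) * ((N + 1) * (N' + 1))) =
      2 * (K + 4) * (N + 1) * (N + 1) * (N' + 1) * 8 * e := by ring
    have h4 : 8 * e * (N + 1) ≤ ν * (N + 1) := by linarith only [h1, h2, h3, heD]
    have h5 := le_of_mul_le_mul_right h4 hN
    linarith only [h5]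
  have heν' : e ≤ ν' / 8 := by
    have h1 := (div_le_iff₀ hN').1 hν'
    have h2 := hone (8 * e * ((N' + 1) * (N + 1))) (2 * (K + 4) * (N + 1)) (by positivity)
      (hm _ _ n1k n1)
    have h3 : 8 * e * ((N' + 1) * (N + 1)) * (2 * (K + 4) * (N + 1)) =
      2 * (K + 4) * (N + 1) * (N + 1) * (N' + 1) * 8 * e := by ring
    have h6 := mul_le_mul_of_nonneg_left h1 hN.le
    have h7 : (N + 1) * (ν' * (N' + 1)) = ν' * ((N' + 1) * (N + 1)) := by ring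
    have h4 : 8 * e * ((N' + 1) * (N + 1)) ≤ ν' * ((N' + 1) * (N + 1)) := by
      linarith only [h2, h3, heD, h6, h7, hRN]
    have h5 := le_of_mul_le_mul_right h4 (mul_pos hN' hN)
    linarith only [h5]
  obtain ⟨τ, hτ⟩ : ∃ τ : ℝ, τ = min (min e (sn w 2)) (min (μ / 2) (μ' / 2)) := ⟨_, rfl⟩
  have hτ0 : 0 < τ := by rw [hτ]; exact lt_min (lt_min he0 hs2) (lt_min (by linarith) (by linarith))
  have hτe : τ ≤ e := by rw [hτ]; exact (min_le_left _ _).trans (min_le_left _ _)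
  have hτs : τ ≤ sn w 2 := by rw [hτ]; exact (min_le_left _ _).trans (min_le_right _ _)
  have hτμ : τ ≤ μ / 2 := by rw [hτ]; exact (min_le_right _ _).trans (min_le_left _ _)
  have hτμ' : τ ≤ μ' / 2 := by rw [hτ]; exact (min_le_right _ _).trans (min_le_right _ _)
  obtain ⟨φ', hφ'⟩ : ∃ φ' : ℝ, φ' = max φ τ := ⟨_, rfl⟩
  have hφ'e : φ' ≤ e := by rw [hφ']; exact max_le (by rw [he]; exact hφ) hτe
  have hφφ : φ ≤ φ' := by rw [hφ']; exact le_max_left _ _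
  have hτφ : τ ≤ φ' := by rw [hφ']; exact le_max_right _ _
  have hφ'0 : 0 ≤ φ' := hτ0.le.trans hτφ
  have hφ'μ : φ' < μ := by rw [hφ']; exact max_lt Nm.φμ (by linarith)
  have hφ'μ' : φ' < μ' := by rw [hφ']; exact max_lt Nm'.φμ (by linarith)
  obtain ⟨p', hp'⟩ : ∃ p' : ℕ → ℝ, p' = fun l => if l = 2 then min (pl 2) (sn w 2 - τ / 2) else
    pl l := ⟨_, rfl⟩
  have p'2 : p' 2 = min (pl 2) (sn w 2 - τ / 2) := by rw [hp']; simp
  have p'n : ∀ l, l ≠ 2 → p' l = pl l := fun l hl => by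
    rw [hp']
    simp only [if_neg hl]
  have hp'l : ∀ l, p' l ≤ pl l := fun l => by
    by_cases hl : l = 2
    · subst hl
      rw [p'2]
      exact min_le_left _ _
    · rw [p'n l hl]
  have hp'0 : ∀ l, 1 ≤ l → l ≤ 3 → 0 ≤ p' l := fun l l0 l1 => by
    by_cases hl : l = 2
    · subst hl
      rw [p'2]
      exact le_min (Nm.p0 2 l0 l1) (by linarith)
    · rw [p'n l hl]
      exact Nm.p0 l l0 l1
  have hp'r : ∀ l, 1 ≤ l → l ≤ 3 → sn w l - φ' ≤ p' l ∧ p' l ≤ sn w l := fun l l0 l1 => by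
    have h1 := Nm.pc l l0 l1
    by_cases hl : l = 2
    · subst hl
      rw [p'2]
      exact ⟨le_min (by linarith [h1.1]) (by linarith), (min_le_left _ _).trans h1.2⟩
    · rw [p'n l hl]
      exact ⟨by linarith [h1.1], h1.2⟩
  have hq3 : sw 1 3 = 3 := sw_gt (by norm_num)
  -- the labels
  have hLb' : LbR S₂ (fun l => cc hn o.1.1 (sw 1 l)) 1 K (fun w l => sn w (sw 1 l)) G g
      (2 ^ k₂ * R) (2 ^ k₂ * R) ((1 / 2) ^ k₂ * R) 3 := by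
    have h1 : LbR S₂ (cc hn o.1.1) 1 K sn G g (2 ^ k₂ * R) (2 ^ k₂ * R)
        ((1 / 2) ^ k₂ * R) 3 :=
      hLb.mono (mul_le_mul_of_nonneg_right hge2 hR.le) (mul_le_mul_of_nonneg_right hge2 hR.le)
        (mul_le_mul_of_nonneg_right hle2 hR.le)
    have h2 : 2 ^ k₂ * R ≤ (1 / 2) ^ k₃ := by
      have h3 : (2 : ℝ) ^ k₂ * R ≤ 2 ^ k₂ * (1 / 2) ^ (k₂ + k₃) :=
        mul_le_mul_of_nonneg_left hRk.le (by positivity)
      have h4 : (2 : ℝ) ^ k₂ * (1 / 2) ^ (k₂ + k₃) = (1 / 2) ^ k₃ := by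
        rw [hadd, ← mul_assoc, ← mul_pow]
        norm_num
      linarith
    have h3 : (1 / 2) ^ k₂ * R ≤ (1 / 2) ^ k₃ := by
      have h4 : (1 / 2 : ℝ) ^ k₂ * R ≤ 1 * R := mul_le_mul_of_nonneg_right hp21 hR.le
      linarith [hRk.le.trans hle3]
    have h5 := hlb h1 (by linarith)
    rw [max_eq_left hK1] at h5
    rw [hsn]
    exact h5
  have hd' : ∀ l, 1 ≤ l → l ≤ 3 → HasDerivAt (fun w => (fun l => LvL hn P P' o (sw 1 l)) l w w)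
      ((fun l => Sl (sw 1 l)) l) g := fun l l0 l1 => e1 _ (sw_m3 l0 l1).1 (sw_m3 l0 l1).2
  have hrow' : RowR r ((fun l => LvL hn P P' o (sw 1 l)) 3 g g) h R ((1 / 2) ^ k₂ * R) := by
    intro a b ha hb hab
    have h0 : (fun l => LvL hn P P' o (sw 1 l)) 3 g g = LvL hn P P' o 3 g g := by
      show LvL hn P P' o (sw 1 3) g g = _
      rw [hq3]
    rw [h0] at ha hb
    have h1 := hrow a b ha hb hab
    have h2 := mul_le_mul_of_nonneg_right hle2 hR.le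
    linarith
  have hbA := bx2_sw Nm' (φ' := φ') (p' := p') (by linarith) hφ'μ' (p'n 0 (by norm_num)) hp'0 hp'r
  have hbB := bx2_sw Nm (φ' := φ') (p' := p') (by linarith) hφ'μ (p'n 0 (by norm_num)) hp'0 hp'r
  have hcgs := HQ (fun l => Sl (sw 1 l)) hd' e2 (fun l l0 l1 => e3 _ (sw_m3 l0 l1).1
    (sw_m3 l0 l1).2) R hR (hRk.trans_le hle2) hrow' (by
      rw [hsn] at hLb'
      exact hLb') w hw R' j' x' j x hRR hRN w1 j1' x1' j1 x1 δW q' ξ' μ' ν' q ξ μ ν φ'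
    (fun l => p' (sw 1 l)) (fun l => sl (sw 1 l)) (by rw [hsn] at hbA; exact hbA)
    (by rw [hsn] at hbB; exact hbB) (hφ'e.trans he2) hξ' hν' hμ' hνθ' hθq' hξ hν hμ hνθ hθq hkq
    hqq hqν hξξ hμμ (fun l l0 l1 => hCq _ (sw_m2 l0 l1).1 (sw_m2 l0 l1).2)
  -- the change of the frame
  obtain ⟨u₁, rd, -, hchn⟩ := gs_chn1 H₂.toPk hTop hF (hGs hw) (i := 3) (by norm_num)
    (by norm_num)
  have hwρ : g - ρ' ≤ w ∧ w ≤ g + ρ' := by
    rw [abs_le] at w1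
    have h1 : R < ρ' := hRk.trans_le (hle3.trans hk5)
    constructor <;> linarith [w1.1, w1.2]
  have hres := cgt_of H₂.toPk.tmc (cc_inj hn o.1.1) hK1 (σ := σ) (ε := εg) (p := p') (s := sl)
    (by norm_num : 2 ≤ 3) hchn le_rfl (hcx w hw hwρ.1 hwρ.2)
    (by rw [p'2]; exact (min_le_right _ _).trans_lt (by linarith)) hφ'0
    (by rw [p'n 0 (by norm_num)]; linarith)
    (fun l l0 l1 => by
      rw [Nm.sc l l0 (by omega), hsn])
    (by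
      have h1 := (hp'r 1 le_rfl (by norm_num)).1
      rw [hsn] at h1
      exact h1)
    (by
      rw [Nm.sc 2 (by norm_num) (by norm_num)]
      exact (hp'r 2 (by norm_num) (by norm_num)).1) hσ0
    (by
      have h1 : 2 * ((K : ℝ) + 4) * φ' ≤ 2 * (K + 4) * e :=
        mul_le_mul_of_nonneg_left hφ'e (by positivity)
      linarith) hξσ hξσ' Nm.ξ0.le Nm'.ξ0.le Nm.wj Nm.wx Nm'.wj Nm'.wx hεg hcgs
  exact cGt_p hres fun l _ => hp'l l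

end Pool.SWP
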