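import Pool.Agent.H57.SWB.Cgy
import Pool.Agent.H88.FSW.Aes
import Pool.Agent.H50.AVN.Sfp
import Pool.Agent.H95.VF.Fgd
import Pool.Agent.H31.AVN.Pst

/-!
# The closed gradient for the cell `[one, thin, sta]` with a thin slope larger than two

`aeSw_cgs_ts`: the closed gradient for the swapped list at
almost every window. `aeRs_cgt_ts`: the property `CgtQ` at almost every window where the swapped list
exists.
-/

set_option autoImplicit false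

namespace Pool.SWP

open Finset Real MvPolynomial MeasureTheory Filter Topology
open Pool.Agent.H49.Ent Pool.Agent.H32.Dense Pool.STK Pool.KA Pool.KSAT Pool.K2S Pool.PB Pool.S6C
open Pool.GEN Pool.CHT Pool.CHX Pool.ISO Pool.RCD Pool.LA91 Pool.AVG96 Pool.AVG50 Pool.CDX
open Pool.PKG Pool.OWN68 Pool.OWN83 Pool.D2F2 Pool.AVG57 Pool.TSW50 Pool.TSW66 Pool.FUL95
open Pool.TOP (TopS)
open Pool.ASM (PhST)

/-- A stronger property of the swapped list. -/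
theorem AeSw.mono {n k : ℕ} {ι : Type} {Q Q' : PropG n ι} (h : AeSw n k Q)
    (hQ : ∀ (p : ι) (k₀ : ℕ) (S : PCl n) (P : List (Fin n) × Fin n → ℝ → ℝ → ℝ) (θ : ℝ)
      (c : ℕ → Fin n) (Pt : ℝ → ℝ → ℝ) (r : ℝ → ℝ) (L T : ℕ → ℝ → ℝ → ℝ) (κ : ℕ → Kg)
      (G : Set ℝ) (x : ℝ), Q p k₀ S P θ c Pt r L T κ G x → Q' p k₀ S P θ c Pt r L T κ G x) :
    AeSw n k Q' := by
  intro hn S P r P' Λ PB PQ H hTop hF o G hG hGs hdg hsw
  obtain ⟨S₁, a1, a2, a3⟩ := h hn S P r P' Λ PB PQ H hTop hF o G hG hGs hdg hsw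
  refine ⟨S₁, a1, a2, ?_⟩
  filter_upwards [a3] with g ha hg κ hκ p
  obtain ⟨k₀, hk₀⟩ := ha hg κ hκ p
  exact ⟨k₀, hQ _ _ _ _ _ _ _ _ _ _ _ _ _ hk₀⟩

theorem aeSw_vf_mono {n k v : ℕ} {Φ Φ' : (ℕ → ℝ) → Prop}
    (h : AeSw n k (VfQ v Φ : PropG n Unit)) (hΦ : ∀ Sl, Φ' Sl → Φ Sl) :
    AeSw n k (VfQ v Φ' : PropG n Unit) :=
  h.mono fun _ _ _ _ _ _ _ _ _ _ _ _ _ H Sl hd hS => H Sl hd (hΦ Sl hS)

theorem aeSw_vfp_mono {n k v : ℕ} {Φ Φ' : (ℕ → ℝ) → Prop} {C₁ : (ℕ → ℝ) → ℝ}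
    (h : AeSw n k (VfPQ v Φ C₁ : PropG n ℕ)) (hΦ : ∀ Sl, Φ' Sl → Φ Sl) :
    AeSw n k (VfPQ v Φ' C₁ : PropG n ℕ) :=
  h.mono fun _ _ _ _ _ _ _ _ _ _ _ _ _ H Sl hd hS => H Sl hd (hΦ Sl hS)

/-- **The closed gradient for the swapped list** at almost every window, from the full heights. -/
theorem aeSw_cgs_ts {h εg : ℝ} (hh : 0 < h) (hh1 : h ≤ 1) (hεg : 0 < εg) :
    ∃ cs cs' : ℕ → Cst, (∀ K, (cs K).Ok) ∧ (∀ K, (cs' K).Ok) ∧
      ((∀ k, 1 ≤ k → k < 4 → FZX k) →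
        AeSw 4 1 (CgsE 1 (PhST fun x => 2 < x) (fun _ => 1) h εg cs cs' : PropG 4 (ℕ × ℕ))) := by
  obtain ⟨cs, cs', h1, h2, H⟩ := aeSw_cgs (Φ := PhST fun x => 2 < x) (C₁ := fun _ => 1)
    (fun _ _ _ => rfl) hh hh1 hεg
  refine ⟨cs, cs', h1, h2, fun hF => ?_⟩
  have hful := Pool.FSW88.aeSw_ful (Φ' := PhST fun x => 2 < x) le_rfl (fun Sl hS => by
    show Sl (sw 1 1) ≠ Sl (sw 1 2)
    rw [sw_k, sw_k1]
    have := hS.1
    have h2 : 2 < Sl 2 := hS.2.2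
    exact fun h => by linarith) (Pool.FUL95.aePG_ful fun k a b => hF k a (by omega))
  refine H (aeSw_vf_mono (aeSw_vful le_rfl hful) fun Sl hS => ⟨hS, by
    have := hS.1
    have h2 : 2 < Sl 2 := hS.2.2
    linarith⟩) (aeSw_vfp_mono (aeSw_vfp le_rfl (fun Sl hS => by
    have := hS.1
    show Sl 1 - 1 ≤ 1
    linarith) hful) fun Sl hS => ⟨hS, by
    have := hS.1
    have h2 : 2 < Sl 2 := hS.2.2
    linarith⟩)

/-- **The property `CgtQ`** at almost every window where the swapped list exists. -/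
theorem aeRs_cgt_ts {h εg : ℝ} (hh : 0 < h) (hh1 : h ≤ 1) (hεg : 0 < εg) :
    ∃ cs cs' : ℕ → Cst, (∀ K, (cs K).Ok) ∧ (∀ K, (cs' K).Ok) ∧
      ((∀ k, 1 ≤ k → k < 4 → FZX k) →
        AeRs 4 1 (CgtQ (PhST fun x => 2 < x) (fun _ => 1) h εg cs cs' : PropG 4 (ℕ × ℕ))) := by
  obtain ⟨cs, cs', h1, h2, H⟩ := aeSw_cgs_ts hh hh1 (half_pos hεg)
  exact ⟨cs, cs', h1, h2, fun hF => aeRs_cgt hεg (H hF)⟩

end Pool.SWP
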