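import Pool.Agent.H57.SWB.Jrs
import Pool.Agent.H50.TSW.Chw

/-!
# Exact closed affine charts over the base

`chR_one`: the closed affine chart of the place `1` over the base, of the precision of its diagonal
number, at all windows near a point where this number is continuous. `ChX`, `aeRs_chx`: the exact
charts of the place `2` of the list at all windows of `G` near almost every window of `G`, if the place
`2` has closed labels of its level over the base alone.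
-/

set_option autoImplicit false

namespace Pool.SWP

open Finset Real MvPolynomial MeasureTheory Filter Topology
open Pool.Agent.H49.Ent Pool.Agent.H32.Dense Pool.STK Pool.KA Pool.KSAT Pool.K2S Pool.PB Pool.S6C
open Pool.GEN Pool.CHT Pool.CHX Pool.ISO Pool.RCD Pool.LA91 Pool.AVG96 Pool.AVG50 Pool.CDX
open Pool.PKG Pool.OWN68 Pool.OWN83 Pool.D2F2 Pool.AVG57 Pool.TSW50
open Pool.TOP (TopS)
open Pool.MIC6 (ActF her_sub)
open Pool.OWN17 (Gdw cht_cls cnt_L ChA cpl crs)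
open Pool.OWN72 (epo cc_epo Ctw Dsc gs_act ctw_ae dns_pt dsc_pos)

variable {m : ℕ}

/-- **Exact charts at the windows of continuity**, from the charts of a dense set of windows. -/
theorem chR_lim {S : PCl m} {y k : Fin m} {T : Set ℝ} {L : ℝ → ℝ} {w δ : ℝ} (hδ : 0 < δ)
    (hw : w ≤ 1) (hT : ∀ a : ℝ, w - δ ≤ a → a < w → ∃ t ∈ T, a < t ∧ t < w)
    (hA : ∀ t ∈ T, ChR S y k t (L t)) (hc : ContinuousAt L w) : ChR S y k w (L w) := by
  intro e he
  obtain ⟨η, hη, H⟩ := Metric.continuousAt_iff.1 hc (e / 2) (by linarith)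
  obtain ⟨t, ht, t1, t2⟩ := hT (w - min δ η / 2) (by linarith [min_le_left δ η, lt_min hδ hη])
    (by linarith [lt_min hδ hη])
  have h1 := H (x := t) (by
    rw [Real.dist_eq, abs_lt]
    have := min_le_right δ η
    have := lt_min hδ hη
    constructor <;> linarith)
  rw [Real.dist_eq, abs_lt] at h1
  have h2 := (hA t ht).win (p' := L w - e / 2) t2.le hw (by linarith [h1.1])
  refine Bas.mono 0 (h2 (e / 2) (by linarith)) ?_
  rintro J - F A ⟨a, ha⟩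
  have hJ0 : (0 : ℝ) ≤ J := Nat.cast_nonneg J
  exact ⟨a, ha.mono (Nat.floor_le_floor (mul_le_mul_of_nonneg_right (by linarith) hJ0))
    (Nat.floor_le_floor (mul_le_mul_of_nonneg_right (by linarith) hJ0))⟩

/-- **The exact chart of the place `1` over the base** near a point, in a subclass. -/
theorem chR_one {S : PCl m} (hS : S.Ne) {C₀ : ℝ} (hC₀ : 0 ≤ C₀) (htm : TmC S C₀)
    {L : Finset (Fin m) → Fin m → ℝ → ℝ → ℝ} (hL : LamW S L) {c : ℕ → Fin m} (h01 : c 0 ≠ c 1)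
    (hact : ActF S (c 0)) :
    ∃ S' : PCl m, S'.Ne ∧
      (∀ (τ : ℝ) (J : ℕ) (F : Fam m J) (A : F.Ω → Prop), S'.St τ J F A → S.St τ J F A) ∧
      ∀ {r₀ r : ℕ} {sn : ℝ → ℕ → ℝ} {G : Set ℝ} {g : ℝ} {Sl : ℕ → ℝ},
        SlpG sn r₀ r G g Sl → g ∈ G → r₀ ≤ 1 → 2 ≤ r →
        ∀ {ρ₀ : ℝ}, 0 < ρ₀ →
        (∀ w ∈ G, g - ρ₀ ≤ w → w ≤ g + ρ₀ → sn w 1 = L {c 0} (c 1) w w) →
        (∀ w ∈ G, g - ρ₀ ≤ w → w ≤ g + ρ₀ → sn w 2 ≤ L {c 0, c 1} (c 2) w w) →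
        0 < g → g < sn g 1 → g < sn g 2 → sn g 1 < 1 → ∃ ρ : ℝ, 0 < ρ ∧
        ∀ w : ℝ, g - ρ ≤ w → w ≤ g + ρ → w ≤ 1 → ContinuousAt (fun W => L {c 0} (c 1) W W) w →
          ChR S' (c 0) (c 1) w (L {c 0} (c 1) w w) := by
  classical
  obtain ⟨T, hTs, hTc, hTd⟩ := (TopologicalSpace.IsSeparable.of_separableSpace
    {t : ℝ | Gdw L (c 0) (c 1) (c 2) t}).exists_countable_dense_subset
  obtain ⟨S', s1, s2, s3⟩ := cha_all hS hC₀ htm hL h01 hact (v := c 2) hTc fun t ht => hTs ht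
  refine ⟨S', s1, s2, ?_⟩
  intro r₀ r sn G g Sl hSl hgG hr₀ hr ρ₀ hρ₀ hsn hsn2 hg0 hu hv hu1
  obtain ⟨ρ, hρ, hρ1, H⟩ := gdw_nearW (r₀ := r₀) (r := r) (i := 1) (y := c 0) (u := c 1)
    (v := c 2) hL hSl hgG hr₀ hr hρ₀ hsn hsn2 hg0 hu hv hu1
  have hden : ∀ a b : ℝ, g - ρ / 2 ≤ a → a < b → b ≤ g + ρ / 2 → ∃ t ∈ T, a < t ∧ t < b := by
    intro a b a1 ab b1
    have hcnt : ({W : ℝ | ¬ ContinuousAt (fun W => L {c 0} (c 1) W W) W} ∪
        {W : ℝ | ¬ ContinuousAt (fun W => L {c 0, c 1} (c 2) W W) W}).Countable :=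
      (cnt_L hL {c 0} (c 1)).2.union (cnt_L hL {c 0, c 1} (c 2)).2
    obtain ⟨t, ht, hti⟩ := (hcnt.dense_compl ℝ).exists_mem_open isOpen_Ioo
      (Set.nonempty_Ioo.mpr ab)
    simp only [Set.mem_compl_iff, Set.mem_union, Set.mem_ofPred_eq, not_or, not_not] at ht
    have hgd := H t (by linarith [hti.1]) (by linarith [hti.2]) ht.1 ht.2
    obtain ⟨t', ht', htT⟩ := mem_closure_iff.1 (hTd hgd) (Set.Ioo a b) isOpen_Ioo hti
    exact ⟨t', htT, ht'.1, ht'.2⟩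
  refine ⟨ρ / 4, by linarith, fun w w1 w2 w3 hc => ?_⟩
  exact chR_lim (T := T) (L := fun W => L {c 0} (c 1) W W) (δ := ρ / 4) (by linarith) w3
    (fun a a1 a2 => hden a w (by linarith) a2 (by linarith)) s3 hc

/-- **Exact charts over the base** at all windows of `G` near `g`. -/
def ChX (S : PCl m) (c : ℕ → Fin m) (sn : ℝ → ℕ → ℝ) (G : Set ℝ) (g : ℝ) (l : ℕ) : Prop :=
  ∃ ρ : ℝ, 0 < ρ ∧ ∀ w ∈ G, g - ρ ≤ w → w ≤ g + ρ → ChR S (c 0) (c l) w (sn w l)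

theorem ChX.sub {S S' : PCl m} {c : ℕ → Fin m} {sn : ℝ → ℕ → ℝ} {G : Set ℝ} {g : ℝ} {l : ℕ}
    (h : ChX S c sn G g l)
    (hs : ∀ (τ : ℝ) (J : ℕ) (F : Fam m J) (A : F.Ω → Prop), S'.St τ J F A → S.St τ J F A) :
    ChX S' c sn G g l := by
  obtain ⟨ρ, hρ, H⟩ := h
  exact ⟨ρ, hρ, fun w hw w1 w2 => (H w hw w1 w2).sub hs⟩

/-- **Exact charts over the base**, as a property of the windows. -/
def ChXQ (k : ℕ) {n : ℕ} (_ : Unit) (_ : ℕ) (S : PCl n) (_ : List (Fin n) × Fin n → ℝ → ℝ → ℝ)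
    (_ : ℝ) (c : ℕ → Fin n) (_ : ℝ → ℝ → ℝ) (_ : ℝ → ℝ) (L _ : ℕ → ℝ → ℝ → ℝ) (_ : ℕ → Kg)
    (G : Set ℝ) (x : ℝ) : Prop :=
  1 < deriv (fun a => L 1 a a) x → 1 < deriv (fun a => L 2 a a) x →
    ChX S c (fun w l => L l w w) G x k

theorem her_chx (k n : ℕ) : HerQ (ChXQ k : PropG n Unit) := by
  intro p k₀ S S' P θ c Pt r L T κ G x hs h h1 h2
  exact (h h1 h2).sub hs

/-- **The exact charts of the place `2` over the base** at almost every window where the swapped list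
exists. -/
theorem aeRs_chx {n : ℕ} (hn3 : 2 < n - 1) : AeRs n 1 (ChXQ 2 : PropG n Unit) := by
  intro hn S P r P' Λ PB PQ H hTop hF o G hG hGs hdg hsw hctd
  obtain ⟨c, hc⟩ : ∃ c : ℕ → Fin n, c = fun l => cc hn o.1.1 (sw 1 l) := ⟨_, rfl⟩
  obtain ⟨sn, hsn⟩ : ∃ sn : ℝ → ℕ → ℝ, sn = fun w l => LvL hn P P' o (sw 1 l) w w := ⟨_, rfl⟩
  have s0 : sw 1 0 = 0 := sw_lt one_pos
  have s1 : sw 1 1 = 2 := sw_k 1
  have s2 : sw 1 2 = 1 := sw_k1 1
  have c0 : c 0 = cc hn o.1.1 0 := by rw [hc]; show cc hn o.1.1 (sw 1 0) = _; rw [s0]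
  have c1 : c 1 = cc hn o.1.1 2 := by rw [hc]; show cc hn o.1.1 (sw 1 1) = _; rw [s1]
  have c2 : c 2 = cc hn o.1.1 1 := by rw [hc]; show cc hn o.1.1 (sw 1 2) = _; rw [s2]
  have n1 : ∀ w, sn w 1 = LvL hn P P' o 2 w w := fun w => by
    rw [hsn]; show LvL hn P P' o (sw 1 1) w w = _; rw [s1]
  have n2 : ∀ w, sn w 2 = LvL hn P P' o 1 w w := fun w => by
    rw [hsn]; show LvL hn P P' o (sw 1 2) w w = _; rw [s2]
  have h01 : c 0 ≠ c 1 := fun h => by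
    rw [c0, c1] at h
    have := cc_inj' hn o.1.1 (i := 0) (j := 2) (by omega) (by omega) h
    omega
  obtain ⟨S', b1, b2, b3⟩ := chR_one H.toPk.ne (by norm_num) H.toPk.tmc H.toPk.lam h01
    (by rw [c0]; exact gs_act H.toPk o)
  refine ⟨S', b1, b2, ?_⟩
  have hct : ∀ᵐ g : ℝ, g ∈ Ctw Λ := by
    have h1 := (ctw_ae (Λ := Λ) H.toPk.lam).ae_notMem volume
    filter_upwards [h1] with g hg
    by_contra hcon
    exact hg hcon
  filter_upwards [hct, dns_pt (G ∩ Ctw Λ), gap_ae hG, H.toPkT.dia_all H.pble hTop hF,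
    sl_one H.toPkT hTop hF] with g kct kdn kgap kdia ksl hg κ hκ p
  refine ⟨0, fun hs1 hs2 => ?_⟩
  have hgG := hGs hg
  have hds : Dsc (G ∩ Ctw Λ) g := kdn ⟨hg, kct⟩
  have hsub : G ∩ Ctw Λ ⊆ Gs P r P' Λ o ∩ Ctw Λ := fun x hx => ⟨hGs hx.1, hx.2⟩
  have hder : ∀ l, l ≤ n - 1 → HasDerivAt (fun a => LvL hn P P' o l a a)
      (deriv (fun a => LvL hn P P' o l a a) g) g := fun l hl =>
    (kdia o hgG l hl).1.hasDerivAt
  obtain ⟨Sl, hSl⟩ : ∃ Sl : ℕ → ℝ, Sl = fun l => deriv (fun a => LvL hn P P' o (sw 1 l) a a) g :=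
    ⟨_, rfl⟩
  have hsl : ∀ l, 1 ≤ l → l ≤ 2 → 1 < Sl l ∧ HasDerivAt (fun a => sn a l) (Sl l) g := by
    intro l l0 l1
    have : l = 1 ∨ l = 2 := by omega
    rw [hSl, hsn]
    rcases this with rfl | rfl
    · show 1 < deriv (fun a => LvL hn P P' o (sw 1 1) a a) g ∧
        HasDerivAt (fun a => LvL hn P P' o (sw 1 1) a a)
          (deriv (fun a => LvL hn P P' o (sw 1 1) a a) g) g
      rw [s1]
      exact ⟨hs2, hder 2 (by omega)⟩
    · show 1 < deriv (fun a => LvL hn P P' o (sw 1 2) a a) g ∧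
        HasDerivAt (fun a => LvL hn P P' o (sw 1 2) a a)
          (deriv (fun a => LvL hn P P' o (sw 1 2) a a) g) g
      rw [s2]
      exact ⟨hs1, hder 1 (by omega)⟩
  have hnn : ∀ l, 1 ≤ l → l ≤ 2 → 0 ≤ Sl l := fun l l0 l1 => by
    have := (hsl l l0 l1).1
    linarith
  have hSG' : SlpG sn 1 2 (G ∩ Ctw Λ) g Sl := slpG_of hnn (fun l l0 l1 => (hsl l l0 l1.le).1)
    (fun l l0 l1 => (hsl l l0 l1).2.hasDerivWithinAt) (gap_dsc hds)
  -- the levels at `g`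
  have hle : ∀ a ∈ Gs P r P' Λ o, a ≤ LvL hn P P' o 1 a a := fun a ha => by
    rw [gs_lvl H.toPk hTop hF ha (by omega)]
    exact le_vs H.toPk.lam (epo hn o) ha.1.1.2.1.le _
  have hlo : g < LvL hn P P' o 1 g g := by
    have h5 := dsc_pos hds (f := fun a => LvL hn P P' o 1 a a - a)
      (s := deriv (fun a => LvL hn P P' o 1 a a) g - 1)
      ((hder 1 (by omega)).sub (hasDerivAt_id g)) (by linarith)
      (fun a ha => by
        have := hle a (hGs ha.1)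
        show 0 ≤ LvL hn P P' o 1 a a - a
        linarith) (by
        have := hle g hgG
        show 0 ≤ LvL hn P P' o 1 g g - g
        linarith)
    have h6 : 0 < LvL hn P P' o 1 g g - g := h5
    linarith
  have hlo2 : LvL hn P P' o 1 g g ≤ LvL hn P P' o 2 g g := by
    rw [gs_lvl H.toPk hTop hF hgG (by omega), gs_lvl H.toPk hTop hF hgG hn3]
    have h1 : Vgr Λ (epo hn o) g := hgG.1.1.2.2.1
    exact h1.mono H.toPk.lam hgG.1.1.2.1.le (by omega)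
  obtain ⟨ρ₀, hρ₀, h6⟩ := near_two H.toPk hTop hF hn3 hsub hds hs1 (hder 1 (by omega)) hlo
  have im1 : (range 1).image (cc hn o.1.1) = {cc hn o.1.1 0} := by simp
  obtain ⟨ρ, hρ, h7⟩ := b3 hSG' ⟨hg, kct⟩ le_rfl le_rfl hρ₀ (fun w hw w1 w2 => by
      rw [n1, c0, c1]
      refine le_antisymm ?_ ?_
      · have := hdg w hw.1
        rw [im1] at this
        exact this
      · rw [h6 w hw w1 w2]
        exact H.toPk.lam.mono _ _ _ _ _ _ _ (Finset.singleton_subset_iff.2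
          (Finset.mem_insert_self _ _)) le_rfl le_rfl) (fun w hw w1 w2 => by
      rw [n2, c0, c1, c2, lev_one H.toPk hTop hF (hGs hw.1) (by omega)]
      exact H.toPk.lam.mono _ _ _ _ _ _ _ (Finset.singleton_subset_iff.2
        (Finset.mem_insert_self _ _)) le_rfl le_rfl) hgG.1.1.1 (by
      rw [n1]
      exact hlo.trans_le hlo2) (by
      rw [n2]
      exact hlo) (by
      rw [n1]
      exact lev_lt H.toPk hTop hF hgG hn3)
  refine ⟨ρ, hρ, fun w hw w1 w2 => ?_⟩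
  have hw1 : w ≤ 1 := (hGs hw).1.1.2.1.le
  have h8 := h7 w w1 w2 hw1 (by
    rw [c0, c1]
    exact hctd hw _ _)
  rw [c0, c1] at h8
  have h9 := hdg w hw
  rw [im1] at h9
  exact h8.win le_rfl hw1 h9

end Pool.SWP
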