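import Pool.Agent.H57.SWB.Chx
import Pool.Agent.H57.AVN.Asn

/-!
# Labels of the swapped list

`chA_lbOK`: the closed affine chart as a closed label of degree one. `labW_sw`: the labels of a window
for the list with the places `1`, `2` swapped, from the labels of the list and from the chart of the
place `2` over the base. `lbR_sw`: the same in a box around a window.
-/

set_option autoImplicit false

namespace Pool.SWP

open Finset Real MvPolynomial MeasureTheory Filter Topology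
open Pool.Agent.H49.Ent Pool.Agent.H32.Dense Pool.STK Pool.KA Pool.KSAT Pool.K2S Pool.PB Pool.S6C
open Pool.GEN Pool.CHT Pool.CHX Pool.ISO Pool.RCD Pool.LA91 Pool.AVG96 Pool.AVG50 Pool.CDX
open Pool.PKG Pool.OWN68 Pool.OWN83 Pool.D2F2 Pool.AVG57 Pool.TSW50
open Pool.MIC6 (afq pd_afq_none pd_afq_some deg_afq eval_afq)
open Pool.OWN17 (ChA cpl oh ov)
open Pool.AJX (LbX)

variable {m J : ℕ}

/-- **The chart as a closed label** of degree one. -/
theorem chA_lbOK {F : Fam m J} {κ k : Fin m} {w M E e : ℕ} {a : LnT F → Fin 4 → ℝ}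
    {A : F.Ω → Prop} (h : ChA F κ κ k w M E a A) (he : (2 : ℝ) ^ E * 2 ≤ 2 ^ e) (ρ : ℕ) :
    ∃ z : PtT F → Fin 4 → ℝ, LbOK F {κ} k 1 e J w ρ M A z a (cpl κ κ) := by
  classical
  obtain ⟨z, hz⟩ := h.lb1
  refine ⟨z, hz.deg, hz.dep, hz.cls, hz.pos, fun ω hω => ?_, fun ω hω b _ o => ?_⟩
  · refine le_trans (le_of_eq ?_) (h.vel ω hω)
    congr 1
    unfold ov cpl
    congr 1
    rw [Fintype.sum_option, pd_afq_none]
    have e1 : bd F ω none = 1 := rfl
    have e2 : ∀ j, bd F ω (some j) = F.d ω j := fun _ => rfl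
    simp_rw [e2, pd_afq_some, mul_add, mul_ite, mul_zero]
    rw [Finset.sum_add_distrib, Finset.sum_ite_eq' Finset.univ κ, if_pos (Finset.mem_univ κ),
      Finset.sum_ite_eq' Finset.univ κ, if_pos (Finset.mem_univ κ), e1]
    ring
  · have p0 : (0 : ℝ) ≤ 2 ^ E := by positivity
    unfold cpl
    cases o with
    | none =>
      rw [pd_afq_none]
      exact (h.bnd ω hω 1 (by decide)).trans (by linarith)
    | some j =>
      rw [pd_afq_some]
      by_cases hj : j = κ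
      · rw [if_pos hj, if_pos hj]
        refine (abs_add_le _ _).trans ?_
        have h1 := h.bnd ω hω 2 (by decide)
        have h2 := h.bnd ω hω 3 (by decide)
        linarith
      · rw [if_neg hj, if_neg hj, add_zero, abs_zero]
        positivity

/-- A label with a larger space of values. -/
theorem lbOK_map {F : Fam m J} {I : Finset (Fin m)} {k : Fin m} {K e r w ρ P : ℕ}
    {A : F.Ω → Prop} {V V' : Type} {z : PtT F → V} {z' : LnT F → V}
    {G : V → MvPolynomial (Option (Fin m)) ℝ} (h : LbOK F I k K e r w ρ P A z z' G)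
    {y : PtT F → V'} {y' : LnT F → V'} (pj : V' → V) (h1 : ∀ s, pj (y' s) = z' s)
    (hc : ∀ ω, A ω → y (ptr F r ω) = y' (slam F w ω)) :
    LbOK F I k K e r w ρ P A y y' (fun v => G (pj v)) :=
  ⟨fun v => h.deg _, fun v b b' hn hb => h.dep _ b b' hn hb, hc,
    fun ω hω => by rw [h1]; exact h.pos ω hω, fun ω hω => by rw [h1]; exact h.vel ω hω,
    fun ω hω b hb o => by rw [h1]; exact h.lip ω hω b hb o⟩

/-- **The labels of a window for the swapped list.** -/
theorem labW_sw {S : PCl m} {c : ℕ → Fin m} {K : ℕ} {sn : ℝ → ℕ → ℝ} {g₀ b : ℝ}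
    (h : LabW S c 1 K sn g₀ b 3) (hX : ChR S (c 0) (c 2) b (sn b 2)) :
    LabW S (fun l => c (sw 1 l)) 1 (max K 1) (fun w l => sn w (sw 1 l)) g₀ b 3 := by
  obtain ⟨E, rd, h1, h2⟩ := h
  have s0 : sw 1 0 = 0 := sw_lt one_pos
  have s1 : sw 1 1 = 2 := sw_k 1
  have s2 : sw 1 2 = 1 := sw_k1 1
  have s3 : sw 1 3 = 3 := sw_gt (by norm_num)
  refine ⟨fun l => if l = 1 then 0 else E (sw 1 l), fun l => if l = 1 then 0 else rd (sw 1 l),
    fun l l0 l1 => ?_, fun e he => ?_⟩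
  · obtain rfl | rfl | rfl : l = 1 ∨ l = 2 ∨ l = 3 := by omega
    · obtain ⟨a1, a2, a3, a4, a5, a6⟩ := h1 2 (by norm_num) (by norm_num)
      simp only [if_true, s1]
      exact ⟨le_rfl, zero_le_one, le_rfl, by linarith, a5, by linarith⟩
    · obtain ⟨a1, a2, a3, a4, a5, a6⟩ := h1 1 le_rfl (by norm_num)
      simp only [if_neg (show (2 : ℕ) ≠ 1 by norm_num), s2]
      exact ⟨a1, a2, a3, a4, a5, a6⟩
    · obtain ⟨a1, a2, a3, a4, a5, a6⟩ := h1 3 (by norm_num) le_rfl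
      simp only [if_neg (show (3 : ℕ) ≠ 1 by norm_num), s3]
      exact ⟨a1, a2, a3, a4, a5, a6⟩
  obtain ⟨J₁, hJ₁⟩ := exists_nat_ge (2 / e)
  refine (Bas.and (h2 e he) (hX (e / 2) (by linarith))).mono J₁ ?_
  rintro J hJ F A ⟨⟨V, z, z', g, hl⟩, a, ha⟩
  have hJr : (J₁ : ℝ) ≤ J := by exact_mod_cast hJ
  have hJ0 : (0 : ℝ) ≤ J := Nat.cast_nonneg J
  have heJ : 2 ≤ e * J := by
    have := hJ₁.trans hJr
    rw [div_le_iff₀ he] at this
    linarith
  -- the chart as a label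
  have hpe : (2 : ℝ) ^ ⌊e / 2 * (J : ℝ)⌋₊ * 2 ≤ 2 ^ ⌊e * (J : ℝ)⌋₊ := by
    rw [← pow_succ]
    refine pow_le_pow_right₀ (by norm_num) (Nat.le_floor ?_)
    have := Nat.floor_le (show 0 ≤ e / 2 * (J : ℝ) by positivity)
    push_cast
    linarith
  obtain ⟨zc, hzc⟩ := chA_lbOK ha hpe ⌊e * (J : ℝ)⌋₊
  refine ⟨V × (Fin 4 → ℝ), fun p => (z p, zc p), fun s => (z' s, a s),
    fun v l => if l = 1 then cpl (c 0) (c 0) v.2 else g v.1 (sw 1 l), fun i i0 i1 => ?_⟩
  have hcl : ∀ ω, A ω → (z (ptr F J ω), zc (ptr F J ω)) =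
      (z' (slam F ⌊b * (J : ℝ)⌋₊ ω), a (slam F ⌊b * (J : ℝ)⌋₊ ω)) := fun ω hω => by
    rw [(hl 1 le_rfl (by norm_num)).cls ω hω, hzc.cls ω hω]
  have hfl : ∀ x y : ℝ, x ≤ y → ⌊x * (J : ℝ)⌋₊ ≤ ⌊y * (J : ℝ)⌋₊ := fun x y hxy =>
    Nat.floor_le_floor (mul_le_mul_of_nonneg_right hxy hJ0)
  obtain rfl | rfl | rfl : i = 1 ∨ i = 2 ∨ i = 3 := by omega
  · have hI : ({c 0} : Finset (Fin m)) ⊆ (range 1).image fun l => c (sw 1 l) := by
      refine Finset.singleton_subset_iff.2 (mem_image.2 ⟨0, mem_range.2 one_pos, ?_⟩)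
      rw [s0]
    simp only [if_true, s1]
    exact lbOK_map (hzc.mono hI (le_max_right K 1) (hfl _ _ (by linarith))
      (hfl _ _ (by linarith)) (hfl _ _ (by linarith))) Prod.snd (fun _ => rfl) hcl
  · have hI : (range 1).image c ⊆ (range 2).image fun l => c (sw 1 l) := by
      intro x hx
      obtain ⟨l, hl', rfl⟩ := mem_image.1 hx
      have := mem_range.1 hl'
      obtain rfl : l = 0 := by omega
      exact mem_image.2 ⟨0, mem_range.2 (by norm_num), by rw [s0]⟩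
    have h3 := (hl 1 le_rfl (by norm_num)).mono hI (le_max_left K 1) le_rfl le_rfl le_rfl
    simp only [if_neg (show (2 : ℕ) ≠ 1 by norm_num), s2]
    exact lbOK_map h3 Prod.fst (fun _ => rfl) hcl
  · have hI : (range 3).image c = (range 3).image fun l => c (sw 1 l) :=
      (img_sw c (Or.inr (by norm_num))).symm
    have h3 := (hl 3 (by norm_num) (by norm_num)).mono (Finset.Subset.refl _)
      (le_max_left K 1) le_rfl le_rfl le_rfl
    rw [hI] at h3
    simp only [if_neg (show (3 : ℕ) ≠ 1 by norm_num), s3]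
    exact lbOK_map h3 Prod.fst (fun _ => rfl) hcl

/-- **The labels in a box for the swapped list.** -/
theorem lbR_sw {S : PCl m} {c : ℕ → Fin m} {sn : ℝ → ℕ → ℝ} {G : Set ℝ} {g : ℝ}
    (hX : ChX S c sn G g 2) : ∃ ρ : ℝ, 0 < ρ ∧ ∀ {K : ℕ} {g₀ W ε : ℝ},
      LbR S c 1 K sn G g g₀ W ε 3 → W + ε ≤ ρ →
      LbR S (fun l => c (sw 1 l)) 1 (max K 1) (fun w l => sn w (sw 1 l)) G g g₀ W ε 3 := by
  obtain ⟨ρ, hρ, H⟩ := hX
  refine ⟨ρ, hρ, fun {K g₀ W ε} h hW w hw w1 w2 => ?_⟩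
  obtain ⟨b, hb, b1, b2, h1⟩ := h w hw w1 w2
  exact ⟨b, hb, b1, b2, labW_sw h1 (H b hb (by linarith) (by linarith))⟩

end Pool.SWP
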