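import Pool.Agent.H57.SWB.Cgz
import Pool.Agent.H88.TSC.Wst

/-!
# The cell `[one, thin, sta]` with the thin slope above two at the windows of the swapped list

`cgTS`: the closed gradient of the place two at almost every window where the swapped list exists.
`lCellR_ts2`: the cell at these windows.
-/

set_option autoImplicit false

namespace Pool.SWP

open Finset Real MvPolynomial MeasureTheory Filter Topology
open Pool.Agent.H49.Ent Pool.Agent.H32.Dense Pool.STK Pool.KA Pool.KSAT Pool.K2S Pool.PB Pool.S6C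
open Pool.GEN Pool.CHT Pool.CHX Pool.ISO Pool.RCD Pool.LA91 Pool.AVG96 Pool.AVG50 Pool.CDX
open Pool.PKG (Kd)

/-- **The closed gradient of the place two** for the slopes `s > 2`, `2`, `1 + s`. -/
theorem cgTS : Pool.TSC88.CgTS := by
  intro h h0 h1
  obtain ⟨cs, cs', hok, hok', H⟩ := aeRs_cgt_ts h0 h1 (show (0 : ℝ) < 1 / 2 by norm_num)
  exact ⟨fun _ => 1, cs, cs', fun _ _ => zero_le_one, hok, hok', H⟩

/-- **The cell `[one, thin, sta]`, thin slope above two, for all classes**, at the windows where the
swapped list exists. -/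
theorem lCellR_ts2 : LCellR 4 1 (fun Sl => 2 < Sl 1 ∧ Sl 2 = 2 ∧ Sl 3 = 1 + Sl 1)
    [Kd.one, Kd.thin, Kd.sta] :=
  Pool.TSC88.lCellR_ts cgTS

end Pool.SWP
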